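import Pool.Agent.H491R3.GB.Div

set_option autoImplicit false

namespace Pool.Agent.H491R3.GB

open Finset Real

/-- `q` has too many multiples in `E j` -/
def badq (E : ℕ → Finset ℕ) (A j q : ℕ) : Prop :=
  (2 : ℝ) ^ j / (2 * q * Real.log (2 ^ j) ^ A) < (mul (E j) q : ℝ)

open Classical in
theorem bad_count (E : ℕ → Finset ℕ) (hE : ∀ j, E j ⊆ Icc 1 (2 ^ j))
    (hU : ∀ U : ℕ, ∃ j₁ : ℕ, ∀ j, j₁ ≤ j → ((E j).card : ℝ) ≤ 2 ^ j / Real.log (2 ^ j) ^ U)
    (A A' : ℕ) : ∃ j₀ : ℕ, ∀ j, j₀ ≤ j → 1 < Real.log ((2 : ℝ) ^ j) ∧ ∀ Q : ℕ, 1 ≤ Q → 2 * Q ≤ 2 ^ j →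
      (((Ico Q (2 * Q)).filter (fun q => badq E A j q)).card : ℝ) ≤ Q / Real.log (2 ^ j) ^ A' := by
  obtain ⟨j₁, hj₁⟩ := hU (2 * A + 2 * A' + 2)
  refine ⟨max j₁ 256, fun j hj => ?_⟩
  have hj1 : j₁ ≤ j := (le_max_left _ _).trans hj
  have hj2 : 256 ≤ j := (le_max_right _ _).trans hj
  have hj2' : (256 : ℝ) ≤ j := by exact_mod_cast hj2
  set L := Real.log ((2 : ℝ) ^ j) with hL
  have hLj : L = j * Real.log 2 := by rw [hL, Real.log_pow]
  have hl2 : (1 / 2 : ℝ) < Real.log 2 := by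
    have := Real.log_two_gt_d9
    linarith
  have hL128 : 128 < L := by
    rw [hLj]
    nlinarith
  have hL0 : 0 < L := by linarith
  refine ⟨by linarith, fun Q hQ hQj => ?_⟩
  have hE1 := hj₁ j hj1
  rw [← hL] at hE1
  have hQ0 : (0 : ℝ) < Q := by exact_mod_cast hQ
  have hN0 : (0 : ℝ) < (2 : ℝ) ^ j := by positivity
  set N : ℝ := (2 : ℝ) ^ j with hN
  set T : ℝ := N / (4 * Q * L ^ A) with hT
  have hT0 : 0 < T := by positivity
  have hsub : (Ico Q (2 * Q)).filter (fun q => badq E A j q) ⊆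
      (Ico Q (2 * Q)).filter (fun q => T < (mul (E j) q : ℝ)) := by
    intro q hq
    rw [mem_filter, mem_Ico] at hq
    rw [mem_filter, mem_Ico]
    refine ⟨hq.1, lt_of_le_of_lt ?_ hq.2⟩
    rw [← hL, ← hN, hT]
    have hq0 : (0 : ℝ) < q := by exact_mod_cast (by omega : 0 < q)
    have hq2 : (q : ℝ) ≤ 2 * Q := by exact_mod_cast hq.1.2.le
    apply div_le_div_of_nonneg_left hN0.le (by positivity)
    apply mul_le_mul_of_nonneg_right _ (by positivity)
    linarith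
  set c : ℝ := (((Ico Q (2 * Q)).filter (fun q => T < (mul (E j) q : ℝ))).card : ℝ) with hc
  have hc1 : (((Ico Q (2 * Q)).filter (fun q => badq E A j q)).card : ℝ) ≤ c := by
    rw [hc]
    exact_mod_cast card_le_card hsub
  have hc0 : 0 ≤ c := Nat.cast_nonneg _
  have h1 := few_bad (E j) (2 ^ j) Q (hE j) hQ T hT0.le
  rw [← hc] at h1
  have h2 : Real.log (2 * Q) ≤ L := by
    apply Real.log_le_log (by positivity)
    exact_mod_cast hQj
  have h3 : (c * T) ^ 2 ≤ N / L ^ (2 * A + 2 * A' + 2) * (4 * N * (2 * L)) := by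
    refine h1.trans ?_
    push_cast
    rw [← hN]
    have h4 : 0 ≤ 1 + Real.log (2 * Q) := by
      have : 0 ≤ Real.log (2 * (Q : ℝ)) := Real.log_nonneg (by
        have : (1 : ℝ) ≤ Q := by exact_mod_cast hQ
        linarith)
      linarith
    apply mul_le_mul hE1 _ (by positivity) (by positivity)
    apply mul_le_mul_of_nonneg_left _ (by positivity)
    linarith
  have h5 : (c * L ^ A') ^ 2 ≤ (Q : ℝ) ^ 2 := by
    have e1 : (c * L ^ A') ^ 2 = (c * T) ^ 2 * (4 * Q * L ^ A * L ^ A' / N) ^ 2 := by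
      rw [hT]
      field_simp
    rw [e1]
    have e2 : N / L ^ (2 * A + 2 * A' + 2) * (4 * N * (2 * L)) * (4 * Q * L ^ A * L ^ A' / N) ^ 2 =
        128 / L * (Q : ℝ) ^ 2 := by
      have e3 : L ^ (2 * A + 2 * A' + 2) = (L ^ A) ^ 2 * (L ^ A') ^ 2 * L ^ 2 := by
        ring
      rw [e3]
      field_simp
      ring
    calc (c * T) ^ 2 * (4 * Q * L ^ A * L ^ A' / N) ^ 2
        ≤ N / L ^ (2 * A + 2 * A' + 2) * (4 * N * (2 * L)) * (4 * Q * L ^ A * L ^ A' / N) ^ 2 :=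
          mul_le_mul_of_nonneg_right h3 (by positivity)
      _ = 128 / L * (Q : ℝ) ^ 2 := e2
      _ ≤ 1 * (Q : ℝ) ^ 2 := by
          apply mul_le_mul_of_nonneg_right _ (by positivity)
          rw [div_le_one hL0]
          exact hL128.le
      _ = (Q : ℝ) ^ 2 := one_mul _
  have h6 : c * L ^ A' ≤ Q := by
    exact le_of_sq_le_sq h5 hQ0.le
  rw [le_div_iff₀ (by positivity)]
  calc (((Ico Q (2 * Q)).filter (fun q => badq E A j q)).card : ℝ) * L ^ A' ≤ c * L ^ A' :=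
        mul_le_mul_of_nonneg_right hc1 (by positivity)
    _ ≤ Q := h6

/-- a geometric sum with slowly varying weights -/
theorem geom (A j₀ : ℕ) (hj : 3 * (A + 1) ≤ j₀) (I : ℕ) :
    ∑ i ∈ range (I + 1), (2 : ℝ) ^ i / ((i : ℝ) + j₀) ^ (A + 1) ≤
      4 * 2 ^ I / ((I : ℝ) + j₀) ^ (A + 1) := by
  have hj0 : (0 : ℝ) < j₀ := by
    have : 0 < j₀ := by omega
    exact_mod_cast this
  induction I with
  | zero =>
    rw [zero_add, sum_range_one]
    apply div_le_div_of_nonneg_right _ (by positivity)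
    norm_num
  | succ I ih =>
    rw [sum_range_succ]
    have ht : (0 : ℝ) < (I : ℝ) + j₀ := by positivity
    set t : ℝ := (I : ℝ) + j₀ with htd
    have e : ((I + 1 : ℕ) : ℝ) + j₀ = t + 1 := by
      push_cast
      ring
    rw [e]
    have h1 : (t + 1) ^ (A + 1) ≤ 3 / 2 * t ^ (A + 1) := by
      have h2 := one_add_mul_le_pow (a := -(1 / (t + 1))) (by
        have : 1 / (t + 1) ≤ 1 := by
          rw [div_le_one (by positivity)]
          linarith
        linarith) (A + 1)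
      have h3 : (2 / 3 : ℝ) ≤ 1 + ((A + 1 : ℕ) : ℝ) * -(1 / (t + 1)) := by
        have h4 : ((A + 1 : ℕ) : ℝ) * (1 / (t + 1)) ≤ 1 / 3 := by
          rw [mul_one_div, div_le_div_iff₀ (by positivity) (by norm_num)]
          have : (3 * (A + 1) : ℝ) ≤ j₀ := by exact_mod_cast hj
          have hI : (0 : ℝ) ≤ I := Nat.cast_nonneg I
          push_cast
          linarith
        linarith
      have h5 : 1 + -(1 / (t + 1)) = t / (t + 1) := by
        field_simp
        ring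
      rw [h5, div_pow] at h2
      have h6 := h3.trans h2
      rw [le_div_iff₀ (by positivity)] at h6
      linarith
    have h7 : (4 : ℝ) * 2 ^ I / t ^ (A + 1) ≤ 6 * 2 ^ I / (t + 1) ^ (A + 1) := by
      rw [div_le_div_iff₀ (by positivity) (by positivity)]
      calc (4 : ℝ) * 2 ^ I * (t + 1) ^ (A + 1) ≤ 4 * 2 ^ I * (3 / 2 * t ^ (A + 1)) :=
            mul_le_mul_of_nonneg_left h1 (by positivity)
        _ = 6 * 2 ^ I * t ^ (A + 1) := by ring
    calc _ ≤ (4 : ℝ) * 2 ^ I / t ^ (A + 1) + 2 ^ (I + 1) / (t + 1) ^ (A + 1) := by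
          linarith [ih]
      _ ≤ 6 * 2 ^ I / (t + 1) ^ (A + 1) + 2 ^ (I + 1) / (t + 1) ^ (A + 1) := by linarith
      _ = 4 * 2 ^ (I + 1) / (t + 1) ^ (A + 1) := by
          rw [← add_div]
          congr 1
          ring

theorem sum_inv_sq_le (a b : ℕ) (ha : 2 ≤ a) : ∑ j ∈ Icc a b, 1 / (j : ℝ) ^ 2 ≤ 1 := by
  have h : ∀ b : ℕ, 1 ≤ b → ∑ j ∈ Icc 2 b, 1 / (j : ℝ) ^ 2 ≤ 1 - 1 / (b : ℝ) := by
    intro b hb
    induction b, hb using Nat.le_induction with
    | base => simp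
    | succ b hb ih =>
      rw [Finset.sum_Icc_succ_top (by omega : 2 ≤ b + 1)]
      have hb0 : (0 : ℝ) < b := by exact_mod_cast hb
      have h1 : 1 / (((b + 1 : ℕ) : ℝ)) ^ 2 ≤ 1 / (b : ℝ) - 1 / ((b : ℝ) + 1) := by
        rw [div_sub_div _ _ (by positivity) (by positivity),
          div_le_div_iff₀ (by positivity) (by positivity)]
        push_cast
        nlinarith
      push_cast at h1 ih ⊢
      linarith
  have h2 : ∑ j ∈ Icc a b, 1 / (j : ℝ) ^ 2 ≤ ∑ j ∈ Icc 2 b, 1 / (j : ℝ) ^ 2 := by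
    apply sum_le_sum_of_subset_of_nonneg
    · exact Icc_subset_Icc_left ha
    · intro i _ _
      positivity
  refine h2.trans ?_
  rcases Nat.eq_zero_or_pos b with hb | hb
  · subst hb
    simp
  · refine (h b hb).trans ?_
    have : (0 : ℝ) ≤ 1 / (b : ℝ) := by positivity
    linarith

open Classical in
/-- The thin exceptional set of moduli. -/
theorem assemble (E : ℕ → Finset ℕ) (hE : ∀ j, E j ⊆ Icc 1 (2 ^ j))
    (hU : ∀ U : ℕ, ∃ j₁ : ℕ, ∀ j, j₁ ≤ j → ((E j).card : ℝ) ≤ 2 ^ j / Real.log (2 ^ j) ^ U)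
    (A : ℕ) : ∃ (j₀ : ℕ) (B : Set ℕ),
      (∀ X : ℝ, 2 ≤ X → {q | q ∈ B ∧ (q : ℝ) ≤ X}.Finite ∧
        ({q | q ∈ B ∧ (q : ℝ) ≤ X}.ncard : ℝ) ≤ X / Real.log X ^ A) ∧
      ∀ j, j₀ ≤ j → ∀ q : ℕ, 0 < q → 4 * q ≤ 2 ^ j →
        (q ∉ B ∨ (q : ℝ) ≤ Real.log (2 ^ j) ^ A) →
        (mul (E j) q : ℝ) ≤ (2 : ℝ) ^ j / (2 * q * Real.log (2 ^ j) ^ A) := by
  obtain ⟨j₁, hj₁⟩ := bad_count E hE hU A (A + 3)
  have hl2 : (1 / 2 : ℝ) < Real.log 2 := by
    have := Real.log_two_gt_d9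
    linarith
  set cA : ℝ := 2 ^ (A + 1) / Real.log 2 ^ (A + 3) with hcA
  have hcA0 : 0 < cA := by positivity
  obtain ⟨n₁, hn₁⟩ := exists_nat_gt (4 * cA)
  set j₀ : ℕ := max (max j₁ n₁) (max (3 * (A + 1)) 2) with hj₀
  have a1 : j₁ ≤ j₀ := (le_max_left _ _).trans (le_max_left _ _)
  have a2 : n₁ ≤ j₀ := (le_max_right _ _).trans (le_max_left _ _)
  have a3 : 3 * (A + 1) ≤ j₀ := (le_max_left _ _).trans (le_max_right _ _)
  have a4 : 2 ≤ j₀ := (le_max_right _ _).trans (le_max_right _ _)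
  have hj0 : (0 : ℝ) < j₀ := by exact_mod_cast (by omega : 0 < j₀)
  have key : ∀ j, j₀ ≤ j → ∀ q : ℕ, 0 < q → 4 * q ≤ 2 ^ j → badq E A j q →
      Real.log ((2 : ℝ) ^ j) ^ (A + 3) ≤ (2 : ℝ) ^ (Nat.log 2 q) := by
    intro j hj q hq hqj hb
    obtain ⟨hL, hc⟩ := hj₁ j (a1.trans hj)
    have h1 : 2 ^ Nat.log 2 q ≤ q := Nat.pow_log_le_self 2 hq.ne'
    have h2 : q < 2 ^ (Nat.log 2 q + 1) := Nat.lt_pow_succ_log_self (by norm_num) q
    rw [pow_succ] at h2
    have h3 := hc (2 ^ Nat.log 2 q) Nat.one_le_two_pow (by omega)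
    have h4 : (1 : ℝ) ≤ (((Ico (2 ^ Nat.log 2 q) (2 * 2 ^ Nat.log 2 q)).filter
        (fun q => badq E A j q)).card : ℝ) := by
      have : 0 < ((Ico (2 ^ Nat.log 2 q) (2 * 2 ^ Nat.log 2 q)).filter
        (fun q => badq E A j q)).card := by
        apply card_pos.2
        refine ⟨q, ?_⟩
        rw [mem_filter, mem_Ico]
        exact ⟨⟨h1, by omega⟩, hb⟩
      exact_mod_cast this
    have h5 := h4.trans h3
    have hLp : 0 < Real.log ((2 : ℝ) ^ j) ^ (A + 3) := by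
      have : 0 < Real.log ((2 : ℝ) ^ j) := by linarith
      positivity
    rw [le_div_iff₀ hLp, one_mul] at h5
    exact_mod_cast h5
  refine ⟨j₀, {q | ∃ j, j₀ ≤ j ∧ 4 * q ≤ 2 ^ j ∧ 0 < q ∧ badq E A j q}, fun X hX => ?_, ?_⟩
  · set I := Nat.log 2 ⌊X⌋₊ with hI
    have hX0 : (0 : ℝ) ≤ X := by linarith
    have hfl : ⌊X⌋₊ ≠ 0 := by
      have : 2 ≤ ⌊X⌋₊ := Nat.le_floor (by exact_mod_cast hX)
      omega
    have hI1 : (2 : ℝ) ^ I ≤ X := by
      have h1 : 2 ^ I ≤ ⌊X⌋₊ := Nat.pow_log_le_self 2 hfl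
      have h2 : ((2 ^ I : ℕ) : ℝ) ≤ (⌊X⌋₊ : ℝ) := by exact_mod_cast h1
      push_cast at h2
      exact h2.trans (Nat.floor_le hX0)
    have hI2 : X < (2 : ℝ) ^ (I + 1) := by
      have h1 : ⌊X⌋₊ < 2 ^ (I + 1) := Nat.lt_pow_succ_log_self (by norm_num) _
      have h2 : X < (⌊X⌋₊ : ℝ) + 1 := Nat.lt_floor_add_one X
      have h3 : ((⌊X⌋₊ + 1 : ℕ) : ℝ) ≤ ((2 ^ (I + 1) : ℕ) : ℝ) := by exact_mod_cast h1
      push_cast at h3
      linarith
    set J : ℕ := 2 * ⌈X⌉₊ with hJ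
    set F : ℕ → ℕ → Finset ℕ := fun i j => (Ico (2 ^ i) (2 * 2 ^ i)).filter (fun q => badq E A j q)
      with hF
    set S : Finset ℕ := (range (I + 1)).biUnion fun i =>
      ((Icc j₀ J).filter (fun j => i + 2 ≤ j)).biUnion fun j => F i j with hS
    have hsub : {q | q ∈ {q | ∃ j, j₀ ≤ j ∧ 4 * q ≤ 2 ^ j ∧ 0 < q ∧ badq E A j q} ∧ (q : ℝ) ≤ X} ⊆
        (S : Set ℕ) := by
      rintro q ⟨⟨j, hj, hqj, hq0, hb⟩, hqX⟩
      have h1 : 2 ^ Nat.log 2 q ≤ q := Nat.pow_log_le_self 2 hq0.ne'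
      have h2 : q < 2 ^ (Nat.log 2 q + 1) := Nat.lt_pow_succ_log_self (by norm_num) q
      have hqfl : q ≤ ⌊X⌋₊ := Nat.le_floor hqX
      rw [hS, Finset.mem_coe, mem_biUnion]
      refine ⟨Nat.log 2 q, ?_, ?_⟩
      · rw [mem_range, Nat.lt_succ_iff]
        exact Nat.log_mono_right hqfl
      · rw [mem_biUnion]
        refine ⟨j, ?_, ?_⟩
        · rw [mem_filter, mem_Icc]
          refine ⟨⟨hj, ?_⟩, ?_⟩
          · -- j ≤ J
            have h3 := key j hj q hq0 hqj hb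
            have h4 : (2 : ℝ) ^ (Nat.log 2 q) ≤ X := by
              have : ((2 ^ Nat.log 2 q : ℕ) : ℝ) ≤ (q : ℝ) := by exact_mod_cast h1
              push_cast at this
              linarith
            obtain ⟨hL, -⟩ := hj₁ j (a1.trans hj)
            have h5 : Real.log ((2 : ℝ) ^ j) ≤ Real.log ((2 : ℝ) ^ j) ^ (A + 3) :=
              le_self_pow₀ hL.le (by omega)
            have h6 : Real.log ((2 : ℝ) ^ j) = j * Real.log 2 := by rw [Real.log_pow]
            have h7 : (j : ℝ) * (1 / 2) ≤ j * Real.log 2 :=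
              mul_le_mul_of_nonneg_left hl2.le (Nat.cast_nonneg j)
            have h8 : X ≤ (⌈X⌉₊ : ℝ) := Nat.le_ceil X
            have h9 : (j : ℝ) ≤ ((2 * ⌈X⌉₊ : ℕ) : ℝ) := by
              push_cast
              linarith
            exact_mod_cast h9
          · -- i + 2 ≤ j
            have h3 : 2 ^ (Nat.log 2 q + 2) ≤ 2 ^ j := by
              rw [pow_add]
              omega
            exact (Nat.pow_le_pow_iff_right (by norm_num)).1 h3
        · rw [hF]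
          simp only
          rw [mem_filter, mem_Ico]
          rw [pow_succ] at h2
          exact ⟨⟨h1, by omega⟩, hb⟩
    refine ⟨S.finite_toSet.subset hsub, ?_⟩
    have hcard : ({q | q ∈ {q | ∃ j, j₀ ≤ j ∧ 4 * q ≤ 2 ^ j ∧ 0 < q ∧ badq E A j q} ∧
        (q : ℝ) ≤ X}.ncard : ℝ) ≤ S.card := by
      have := Set.ncard_le_ncard hsub S.finite_toSet
      rw [Set.ncard_coe_finset] at this
      exact_mod_cast this
    refine hcard.trans ?_
    have hS1 : (S.card : ℝ) ≤ ∑ i ∈ range (I + 1), ∑ j ∈ (Icc j₀ J).filter (fun j => i + 2 ≤ j),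
        ((F i j).card : ℝ) := by
      have : S.card ≤ ∑ i ∈ range (I + 1), ∑ j ∈ (Icc j₀ J).filter (fun j => i + 2 ≤ j),
          (F i j).card := by
        rw [hS]
        refine card_biUnion_le.trans ?_
        apply sum_le_sum
        intro i _
        exact card_biUnion_le
      exact_mod_cast this
    refine hS1.trans ?_
    have hS2 : ∀ i ∈ range (I + 1), ∑ j ∈ (Icc j₀ J).filter (fun j => i + 2 ≤ j),
        ((F i j).card : ℝ) ≤ cA * (2 ^ i / ((i : ℝ) + j₀) ^ (A + 1)) := by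
      intro i _
      have h1 : ∀ j ∈ (Icc j₀ J).filter (fun j => i + 2 ≤ j), ((F i j).card : ℝ) ≤
          cA * (2 ^ i / ((i : ℝ) + j₀) ^ (A + 1)) * (1 / (j : ℝ) ^ 2) := by
        intro j hj
        rw [mem_filter, mem_Icc] at hj
        obtain ⟨⟨hj1, -⟩, hj2⟩ := hj
        obtain ⟨hL, hc⟩ := hj₁ j (a1.trans hj1)
        have h2 := hc (2 ^ i) Nat.one_le_two_pow (by
          calc 2 * 2 ^ i = 2 ^ (i + 1) := by rw [pow_succ]; ring
            _ ≤ 2 ^ j := Nat.pow_le_pow_right (by norm_num) (by omega))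
        refine h2.trans ?_
        have h3 : Real.log ((2 : ℝ) ^ j) = j * Real.log 2 := by rw [Real.log_pow]
        rw [h3]
        have hjp : (0 : ℝ) < j := by exact_mod_cast (by omega : 0 < j)
        have h4 : ((i : ℝ) + j₀) / 2 ≤ j := by
          have b1 : (i : ℝ) + 2 ≤ j := by exact_mod_cast hj2
          have b2 : (j₀ : ℝ) ≤ j := by exact_mod_cast hj1
          linarith
        have h5 : (((i : ℝ) + j₀) / 2) ^ (A + 1) ≤ (j : ℝ) ^ (A + 1) :=
          pow_le_pow_left₀ (by positivity) h4 _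
        have hij : (0 : ℝ) < (i : ℝ) + j₀ := by positivity
        push_cast
        rw [hcA]
        have e1 : 2 ^ (A + 1) / Real.log 2 ^ (A + 3) * (2 ^ i / ((i : ℝ) + j₀) ^ (A + 1)) *
            (1 / (j : ℝ) ^ 2) = 2 ^ i / (Real.log 2 ^ (A + 3) * (j : ℝ) ^ 2 *
              (((i : ℝ) + j₀) / 2) ^ (A + 1)) := by
          rw [div_pow]
          field_simp
        rw [e1]
        apply div_le_div_of_nonneg_left (by positivity) (by positivity)
        have e2 : ((j : ℝ) * Real.log 2) ^ (A + 3) =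
            Real.log 2 ^ (A + 3) * (j : ℝ) ^ 2 * (j : ℝ) ^ (A + 1) := by
          rw [mul_pow]
          ring
        rw [e2]
        exact mul_le_mul_of_nonneg_left h5 (by positivity)
      refine (sum_le_sum h1).trans ?_
      rw [← mul_sum]
      have h6 : ∑ j ∈ (Icc j₀ J).filter (fun j => i + 2 ≤ j), 1 / (j : ℝ) ^ 2 ≤ 1 := by
        refine le_trans ?_ (sum_inv_sq_le j₀ J a4)
        apply sum_le_sum_of_subset_of_nonneg (filter_subset _ _)
        intro k _ _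
        positivity
      calc cA * (2 ^ i / ((i : ℝ) + j₀) ^ (A + 1)) *
            ∑ j ∈ (Icc j₀ J).filter (fun j => i + 2 ≤ j), 1 / (j : ℝ) ^ 2
          ≤ cA * (2 ^ i / ((i : ℝ) + j₀) ^ (A + 1)) * 1 :=
            mul_le_mul_of_nonneg_left h6 (by positivity)
        _ = _ := mul_one _
    refine (sum_le_sum hS2).trans ?_
    rw [← mul_sum]
    have hg := geom A j₀ a3 I
    have hlX0 : 0 < Real.log X := Real.log_pos (by linarith)
    have hIj : (0 : ℝ) < (I : ℝ) + j₀ := by positivity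
    have hlX : Real.log X ≤ (I : ℝ) + j₀ := by
      have h1 : Real.log X ≤ Real.log ((2 : ℝ) ^ (I + 1)) := Real.log_le_log (by linarith) hI2.le
      rw [Real.log_pow] at h1
      have h2 : Real.log 2 < 1 := by
        have := Real.log_two_lt_d9
        linarith
      have h3 : ((I + 1 : ℕ) : ℝ) * Real.log 2 ≤ ((I + 1 : ℕ) : ℝ) * 1 :=
        mul_le_mul_of_nonneg_left h2.le (Nat.cast_nonneg _)
      have h4 : (1 : ℝ) ≤ j₀ := by exact_mod_cast (by omega : 1 ≤ j₀)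
      push_cast at h3 h1
      linarith
    have h1 : (j₀ : ℝ) * Real.log X ^ A ≤ ((I : ℝ) + j₀) ^ (A + 1) := by
      rw [pow_succ, mul_comm]
      apply mul_le_mul (pow_le_pow_left₀ hlX0.le hlX A) _ hj0.le (by positivity)
      have : (0 : ℝ) ≤ I := Nat.cast_nonneg I
      linarith
    have hj4 : 4 * cA ≤ j₀ := by
      have : (n₁ : ℝ) ≤ j₀ := by exact_mod_cast a2
      linarith
    calc cA * ∑ i ∈ range (I + 1), (2 : ℝ) ^ i / ((i : ℝ) + j₀) ^ (A + 1)
        ≤ cA * (4 * 2 ^ I / ((I : ℝ) + j₀) ^ (A + 1)) := mul_le_mul_of_nonneg_left hg hcA0.le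
      _ ≤ cA * (4 * X / ((j₀ : ℝ) * Real.log X ^ A)) := by
          apply mul_le_mul_of_nonneg_left _ hcA0.le
          apply div_le_div₀ (by positivity) _ (by positivity) h1
          linarith
      _ = (4 * cA / j₀) * (X / Real.log X ^ A) := by
          field_simp
      _ ≤ 1 * (X / Real.log X ^ A) := by
          apply mul_le_mul_of_nonneg_right _ (by positivity)
          rw [div_le_one hj0]
          exact hj4
      _ = X / Real.log X ^ A := one_mul _
  · intro j hj q hq hqj hor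
    by_contra hcon
    have hb : badq E A j q := lt_of_not_ge hcon
    rcases hor with h | h
    · exact h ⟨j, hj, hqj, hq, hb⟩
    · have h1 := key j hj q hq hqj hb
      obtain ⟨hL, -⟩ := hj₁ j (a1.trans hj)
      have h2 : ((2 ^ Nat.log 2 q : ℕ) : ℝ) ≤ (q : ℝ) := by
        exact_mod_cast Nat.pow_log_le_self 2 hq.ne'
      push_cast at h2
      have h3 : Real.log ((2 : ℝ) ^ j) ^ A < Real.log ((2 : ℝ) ^ j) ^ (A + 3) :=
        pow_lt_pow_right₀ hL (by omega)
      linarith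

end Pool.Agent.H491R3.GB
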