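import Mathlib

set_option autoImplicit false

namespace Pool.Agent.H491R3.GB

open Finset Real

/-- number of multiples of `q` in `E` -/
def mul (E : Finset ℕ) (q : ℕ) : ℕ := (E.filter (fun n => q ∣ n)).card

/-- number of divisors of `n` in `[Q, 2Q)` -/
def dQ (Q n : ℕ) : ℕ := ((Ico Q (2 * Q)).filter (fun q => q ∣ n)).card

theorem sum_mul (E : Finset ℕ) (Q : ℕ) :
    ∑ q ∈ Ico Q (2 * Q), mul E q = ∑ n ∈ E, dQ Q n := by
  unfold mul dQ
  simp only [card_filter]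
  rw [sum_comm]

theorem card_mult (N d : ℕ) : ((Icc 1 N).filter (fun n => d ∣ n)).card = N / d := by
  rw [← Nat.Ioc_filter_dvd_card_eq_div]
  rfl

theorem card_mult_Q (Q d : ℕ) (hQ : 1 ≤ Q) :
    (((Ico Q (2 * Q)).filter (fun n => d ∣ n)).card : ℝ) ≤ 2 * Q / d := by
  have h1 : (Ico Q (2 * Q)).filter (fun n => d ∣ n) ⊆ (Icc 1 (2 * Q)).filter (fun n => d ∣ n) := by
    intro n hn
    rw [mem_filter, mem_Ico] at hn
    rw [mem_filter, mem_Icc]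
    omega
  have h2 := card_le_card h1
  rw [card_mult] at h2
  have h3 : (((2 * Q) / d : ℕ) : ℝ) ≤ (2 * Q : ℕ) / (d : ℝ) := Nat.cast_div_le
  calc (((Ico Q (2 * Q)).filter (fun n => d ∣ n)).card : ℝ) ≤ (((2 * Q) / d : ℕ) : ℝ) := by
        exact_mod_cast h2
    _ ≤ (2 * Q : ℕ) / (d : ℝ) := h3
    _ = 2 * Q / d := by push_cast; ring

theorem gcd_le_sum (Q a b : ℕ) (ha : 1 ≤ a) (haQ : a ≤ 2 * Q) :
    Nat.gcd a b ≤ ∑ d ∈ Icc 1 (2 * Q), if d ∣ a ∧ d ∣ b then d else 0 := by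
  have h1 : Nat.gcd a b ∈ Icc 1 (2 * Q) := by
    rw [mem_Icc]
    exact ⟨Nat.gcd_pos_of_pos_left b ha, (Nat.gcd_le_left b ha).trans haQ⟩
  have h2 := single_le_sum (f := fun d => if d ∣ a ∧ d ∣ b then d else 0)
    (fun i _ => Nat.zero_le _) h1
  rwa [if_pos ⟨Nat.gcd_dvd_left a b, Nat.gcd_dvd_right a b⟩] at h2

theorem gcd_sum (Q : ℕ) (hQ : 1 ≤ Q) :
    (∑ a ∈ Ico Q (2 * Q), ∑ b ∈ Ico Q (2 * Q), (Nat.gcd a b : ℝ)) ≤
      4 * Q ^ 2 * (1 + Real.log (2 * Q)) := by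
  have h1 : (∑ a ∈ Ico Q (2 * Q), ∑ b ∈ Ico Q (2 * Q), (Nat.gcd a b : ℝ)) ≤
      ∑ a ∈ Ico Q (2 * Q), ∑ b ∈ Ico Q (2 * Q), ∑ d ∈ Icc 1 (2 * Q),
        (if d ∣ a ∧ d ∣ b then (d : ℝ) else 0) := by
    apply sum_le_sum
    intro a ha
    apply sum_le_sum
    intro b _
    rw [mem_Ico] at ha
    have h := gcd_le_sum Q a b (by omega) (by omega)
    calc (Nat.gcd a b : ℝ) ≤ ((∑ d ∈ Icc 1 (2 * Q), if d ∣ a ∧ d ∣ b then d else 0 : ℕ) : ℝ) := by
          exact_mod_cast h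
      _ = _ := by
          push_cast
          rfl
  refine h1.trans ?_
  have h2 : ∑ a ∈ Ico Q (2 * Q), ∑ b ∈ Ico Q (2 * Q), ∑ d ∈ Icc 1 (2 * Q),
        (if d ∣ a ∧ d ∣ b then (d : ℝ) else 0) =
      ∑ d ∈ Icc 1 (2 * Q), (d : ℝ) * (((Ico Q (2 * Q)).filter (fun n => d ∣ n)).card : ℝ) ^ 2 := by
    calc ∑ a ∈ Ico Q (2 * Q), ∑ b ∈ Ico Q (2 * Q), ∑ d ∈ Icc 1 (2 * Q),
          (if d ∣ a ∧ d ∣ b then (d : ℝ) else 0)
        = ∑ d ∈ Icc 1 (2 * Q), ∑ a ∈ Ico Q (2 * Q), ∑ b ∈ Ico Q (2 * Q),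
          (if d ∣ a ∧ d ∣ b then (d : ℝ) else 0) := by
          calc _ = ∑ a ∈ Ico Q (2 * Q), ∑ d ∈ Icc 1 (2 * Q), ∑ b ∈ Ico Q (2 * Q),
                (if d ∣ a ∧ d ∣ b then (d : ℝ) else 0) := sum_congr rfl (fun a _ => sum_comm)
            _ = _ := sum_comm
      _ = _ := by
          apply sum_congr rfl
          intro d _
          have h3 : ∀ a b : ℕ, (if d ∣ a ∧ d ∣ b then (d : ℝ) else 0) =
              (d : ℝ) * ((if d ∣ a then (1 : ℝ) else 0) * (if d ∣ b then (1 : ℝ) else 0)) := by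
            intro a b
            by_cases ha : d ∣ a <;> by_cases hb : d ∣ b <;> simp [ha, hb]
          simp only [h3]
          rw [card_filter]
          push_cast
          rw [sq, sum_mul_sum, mul_sum]
          apply sum_congr rfl
          intro a _
          rw [mul_sum]
  rw [h2]
  have h4 : ∑ d ∈ Icc 1 (2 * Q), (d : ℝ) * (((Ico Q (2 * Q)).filter (fun n => d ∣ n)).card : ℝ) ^ 2 ≤
      ∑ d ∈ Icc 1 (2 * Q), 4 * (Q : ℝ) ^ 2 * (1 / (d : ℝ)) := by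
    apply sum_le_sum
    intro d hd
    rw [mem_Icc] at hd
    have h5 := card_mult_Q Q d hQ
    have hd0 : (0 : ℝ) < d := by exact_mod_cast hd.1
    calc (d : ℝ) * (((Ico Q (2 * Q)).filter (fun n => d ∣ n)).card : ℝ) ^ 2
        ≤ (d : ℝ) * (2 * Q / d) ^ 2 := by
          apply mul_le_mul_of_nonneg_left _ hd0.le
          exact pow_le_pow_left₀ (Nat.cast_nonneg _) h5 2
      _ = 4 * (Q : ℝ) ^ 2 * (1 / (d : ℝ)) := by
          field_simp
          ring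
  refine h4.trans ?_
  rw [← mul_sum]
  apply mul_le_mul_of_nonneg_left _ (by positivity)
  have h6 := harmonic_le_one_add_log (2 * Q)
  have h7 : ((harmonic (2 * Q) : ℚ) : ℝ) = ∑ d ∈ Icc 1 (2 * Q), 1 / (d : ℝ) := by
    rw [harmonic_eq_sum_Icc]
    push_cast
    apply sum_congr rfl
    intro d _
    rw [one_div]
  rw [← h7]
  refine h6.trans (le_of_eq ?_)
  push_cast
  rfl

/-- second moment of `dQ` -/
theorem second_moment (N Q : ℕ) (hQ : 1 ≤ Q) :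
    (∑ n ∈ Icc 1 N, (dQ Q n : ℝ) ^ 2) ≤ 4 * N * (1 + Real.log (2 * Q)) := by
  have hQ0 : (0 : ℝ) < Q := by exact_mod_cast hQ
  have h1 : (∑ n ∈ Icc 1 N, (dQ Q n : ℝ) ^ 2) =
      ∑ a ∈ Ico Q (2 * Q), ∑ b ∈ Ico Q (2 * Q),
        (((Icc 1 N).filter (fun n => Nat.lcm a b ∣ n)).card : ℝ) := by
    unfold dQ
    simp only [card_filter]
    push_cast
    have h2 : ∀ n : ℕ, (∑ q ∈ Ico Q (2 * Q), if q ∣ n then (1 : ℝ) else 0) ^ 2 =
        ∑ a ∈ Ico Q (2 * Q), ∑ b ∈ Ico Q (2 * Q), if Nat.lcm a b ∣ n then (1 : ℝ) else 0 := by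
      intro n
      rw [sq, sum_mul_sum]
      apply sum_congr rfl
      intro a _
      apply sum_congr rfl
      intro b _
      by_cases ha : a ∣ n
      · by_cases hb : b ∣ n
        · rw [if_pos ha, if_pos hb, if_pos (Nat.lcm_dvd ha hb), one_mul]
        · rw [if_pos ha, if_neg hb, if_neg (fun h => hb ((Nat.dvd_lcm_right a b).trans h)), mul_zero]
      · rw [if_neg ha, if_neg (fun h => ha ((Nat.dvd_lcm_left a b).trans h)), zero_mul]
    simp only [h2]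
    rw [sum_comm]
    apply sum_congr rfl
    intro a _
    rw [sum_comm]
  rw [h1]
  have h3 : ∑ a ∈ Ico Q (2 * Q), ∑ b ∈ Ico Q (2 * Q),
        (((Icc 1 N).filter (fun n => Nat.lcm a b ∣ n)).card : ℝ) ≤
      ∑ a ∈ Ico Q (2 * Q), ∑ b ∈ Ico Q (2 * Q), (N : ℝ) / Q ^ 2 * (Nat.gcd a b : ℝ) := by
    apply sum_le_sum
    intro a ha
    apply sum_le_sum
    intro b hb
    rw [mem_Ico] at ha hb
    rw [card_mult]
    have ha0 : (0 : ℝ) < a := by exact_mod_cast (by omega : 0 < a)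
    have hb0 : (0 : ℝ) < b := by exact_mod_cast (by omega : 0 < b)
    have haQ : (Q : ℝ) ≤ a := by exact_mod_cast ha.1
    have hbQ : (Q : ℝ) ≤ b := by exact_mod_cast hb.1
    have hl : 0 < Nat.lcm a b := Nat.lcm_pos (by omega) (by omega)
    have hl0 : (0 : ℝ) < Nat.lcm a b := by exact_mod_cast hl
    have h4 : ((N / Nat.lcm a b : ℕ) : ℝ) ≤ (N : ℝ) / (Nat.lcm a b : ℝ) := Nat.cast_div_le
    have h5 : (Nat.gcd a b : ℝ) * (Nat.lcm a b : ℝ) = a * b := by exact_mod_cast Nat.gcd_mul_lcm a b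
    refine h4.trans ?_
    rw [div_mul_eq_mul_div, div_le_div_iff₀ hl0 (by positivity)]
    have h6 : (N : ℝ) * (Nat.gcd a b : ℝ) * (Nat.lcm a b : ℝ) = N * (a * b) := by
      rw [mul_assoc, h5]
    rw [h6]
    apply mul_le_mul_of_nonneg_left _ (Nat.cast_nonneg N)
    rw [sq]
    exact mul_le_mul haQ hbQ hQ0.le ha0.le
  refine h3.trans ?_
  simp only [← mul_sum]
  have h7 := gcd_sum Q hQ
  calc (N : ℝ) / Q ^ 2 * ∑ a ∈ Ico Q (2 * Q), ∑ b ∈ Ico Q (2 * Q), (Nat.gcd a b : ℝ)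
      ≤ (N : ℝ) / Q ^ 2 * (4 * Q ^ 2 * (1 + Real.log (2 * Q))) :=
        mul_le_mul_of_nonneg_left h7 (by positivity)
    _ = 4 * N * (1 + Real.log (2 * Q)) := by
        field_simp

/-- few `q` have many multiples in `E` -/
theorem few_bad (E : Finset ℕ) (N Q : ℕ) (hE : E ⊆ Icc 1 N) (hQ : 1 ≤ Q) (T : ℝ) (hT : 0 ≤ T) :
    ((((Ico Q (2 * Q)).filter (fun q => T < (mul E q : ℝ))).card : ℝ) * T) ^ 2 ≤
      E.card * (4 * N * (1 + Real.log (2 * Q))) := by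
  have h1 : (((Ico Q (2 * Q)).filter (fun q => T < (mul E q : ℝ))).card : ℝ) * T ≤
      ∑ n ∈ E, (dQ Q n : ℝ) := by
    have h2 : (∑ n ∈ E, (dQ Q n : ℝ)) = ∑ q ∈ Ico Q (2 * Q), (mul E q : ℝ) := by
      have := sum_mul E Q
      exact_mod_cast this.symm
    rw [h2, ← nsmul_eq_mul, ← sum_const]
    calc ∑ _q ∈ (Ico Q (2 * Q)).filter (fun q => T < (mul E q : ℝ)), T
        ≤ ∑ q ∈ (Ico Q (2 * Q)).filter (fun q => T < (mul E q : ℝ)), (mul E q : ℝ) := by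
          apply sum_le_sum
          intro q hq
          rw [mem_filter] at hq
          exact hq.2.le
      _ ≤ ∑ q ∈ Ico Q (2 * Q), (mul E q : ℝ) := by
          apply sum_le_sum_of_subset_of_nonneg (filter_subset _ _)
          intro i _ _
          exact Nat.cast_nonneg _
  calc ((((Ico Q (2 * Q)).filter (fun q => T < (mul E q : ℝ))).card : ℝ) * T) ^ 2
      ≤ (∑ n ∈ E, (dQ Q n : ℝ)) ^ 2 := pow_le_pow_left₀ (by positivity) h1 2
    _ ≤ E.card * ∑ n ∈ E, (dQ Q n : ℝ) ^ 2 := sq_sum_le_card_mul_sum_sq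
    _ ≤ E.card * ∑ n ∈ Icc 1 N, (dQ Q n : ℝ) ^ 2 := by
        apply mul_le_mul_of_nonneg_left _ (Nat.cast_nonneg _)
        apply sum_le_sum_of_subset_of_nonneg hE
        intro i _ _
        positivity
    _ ≤ _ := by
        apply mul_le_mul_of_nonneg_left _ (Nat.cast_nonneg _)
        exact second_moment N Q hQ

end Pool.Agent.H491R3.GB
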