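import Pool.Agent.H491R3.GB.Gold
import Pool.Agent.H491R3.GB.Assemble

set_option autoImplicit false

namespace Pool.Agent.H491R3.GB

open Finset

/-- exceptional even numbers in `(2^j/4, 2^j]` -/
noncomputable def Ex (j : ℕ) : Finset ℕ := (Icc 1 (2 ^ j)).filter (fun n : ℕ =>
  2 ^ j < 4 * n ∧ Even n ∧ (gb n : ℝ) < 1 / 2 * (n : ℝ) / Real.log n ^ 2)

theorem Ex_sub (j : ℕ) : Ex j ⊆ Icc 1 (2 ^ j) := filter_subset _ _

theorem Ex_card (U : ℕ) : ∃ j₁ : ℕ, ∀ j, j₁ ≤ j →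
    ((Ex j).card : ℝ) ≤ 2 ^ j / Real.log (2 ^ j) ^ U := by
  obtain ⟨N0, h⟩ := exc U
  refine ⟨N0, fun j hj => ?_⟩
  have h1 : N0 ≤ 2 ^ j := hj.trans (Nat.lt_two_pow_self).le
  have h2 := h (2 ^ j) h1
  have e : (((2 ^ j : ℕ)) : ℝ) = (2 : ℝ) ^ j := by push_cast; ring
  rw [e] at h2
  exact h2

theorem main (A : ℕ) : ∃ (x₀ : ℝ) (B : Set ℕ),
    (∀ X : ℝ, 2 ≤ X → {q | q ∈ B ∧ (q : ℝ) ≤ X}.Finite ∧
      ({q | q ∈ B ∧ (q : ℝ) ≤ X}.ncard : ℝ) ≤ X / Real.log X ^ A) ∧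
    ∀ x : ℝ, x₀ ≤ x → ∀ q : ℕ, 0 < q → (q : ℝ) ≤ x / 4 →
      (q ∉ B ∨ (q : ℝ) ≤ Real.log x ^ A) →
      (((Icc 1 ⌊x⌋₊).filter (fun n : ℕ => x / 2 < n ∧ Even n ∧ q ∣ n ∧
        (gb n : ℝ) < 1 / 2 * (n : ℝ) / Real.log n ^ 2)).card : ℝ) ≤
        x / (q * Real.log x ^ A) := by
  obtain ⟨j₀, B, hB, h⟩ := assemble Ex Ex_sub Ex_card A
  refine ⟨max 2 (2 ^ j₀), B, hB, fun x hx q hq hqx hqB => ?_⟩
  have hx2 : 2 ≤ x := (le_max_left _ _).trans hx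
  have hxj : (2 : ℝ) ^ j₀ ≤ x := (le_max_right _ _).trans hx
  -- `2^(j-1) < x ≤ 2^j`
  obtain ⟨j, hj1, hj2⟩ : ∃ j : ℕ, x ≤ 2 ^ j ∧ (2 : ℝ) ^ j < 2 * x := by
    refine ⟨Nat.clog 2 ⌈x⌉₊, ?_, ?_⟩
    · have h1 : ⌈x⌉₊ ≤ 2 ^ Nat.clog 2 ⌈x⌉₊ := Nat.le_pow_clog (by norm_num) _
      have h2 : ((⌈x⌉₊ : ℕ) : ℝ) ≤ ((2 ^ Nat.clog 2 ⌈x⌉₊ : ℕ) : ℝ) := by exact_mod_cast h1
      push_cast at h2
      exact (Nat.le_ceil x).trans h2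
    · have hc : 1 < ⌈x⌉₊ := by
        have h3 := Nat.le_ceil x
        have h4 : (2 : ℝ) ≤ (⌈x⌉₊ : ℝ) := hx2.trans h3
        have : 2 ≤ ⌈x⌉₊ := by exact_mod_cast h4
        omega
      have h1 : 2 ^ (Nat.clog 2 ⌈x⌉₊).pred < ⌈x⌉₊ := Nat.pow_pred_clog_lt_self (by norm_num) hc
      have h2 : (((2 ^ (Nat.clog 2 ⌈x⌉₊).pred : ℕ)) : ℝ) < x := Nat.lt_ceil.1 h1
      have h5 : 0 < Nat.clog 2 ⌈x⌉₊ := Nat.clog_pos (by norm_num) hc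
      obtain ⟨m, hm⟩ : ∃ m, Nat.clog 2 ⌈x⌉₊ = m + 1 := ⟨_, (Nat.succ_pred_eq_of_pos h5).symm⟩
      rw [hm] at h2 ⊢
      rw [Nat.pred_succ] at h2
      push_cast at h2
      rw [pow_succ]
      linarith
  have hjj : j₀ ≤ j := by
    by_contra hcon
    push_neg at hcon
    have h1 : (2 : ℝ) ^ (j + 1) ≤ 2 ^ j₀ := pow_le_pow_right₀ (by norm_num) hcon
    rw [pow_succ] at h1
    have h2 : x ≤ 2 ^ j := hj1
    have h3 : (0 : ℝ) < 2 ^ j := by positivity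
    linarith
  have hlx : 0 < Real.log x := Real.log_pos (by linarith)
  have hlj : Real.log x ≤ Real.log (2 ^ j) := Real.log_le_log (by linarith) hj1
  have hq4 : 4 * q ≤ 2 ^ j := by
    have h1 : (4 : ℝ) * q ≤ 2 ^ j := by linarith
    exact_mod_cast h1
  have hq0 : (0 : ℝ) < q := by exact_mod_cast hq
  have hfin := h j hjj q hq hq4 (by
    rcases hqB with h1 | h1
    · exact Or.inl h1
    · exact Or.inr (h1.trans (pow_le_pow_left₀ hlx.le hlj A)))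
  have hsub : (Icc 1 ⌊x⌋₊).filter (fun n : ℕ => x / 2 < n ∧ Even n ∧ q ∣ n ∧
        (gb n : ℝ) < 1 / 2 * (n : ℝ) / Real.log n ^ 2) ⊆ (Ex j).filter (fun n => q ∣ n) := by
    intro n hn
    rw [mem_filter, mem_Icc] at hn
    obtain ⟨⟨h1, h2⟩, h3, h4, h5, h6⟩ := hn
    unfold Ex
    rw [mem_filter, mem_filter, mem_Icc]
    have h7 : (n : ℝ) ≤ x := (Nat.le_floor_iff (by linarith)).1 h2
    have h8 : (n : ℝ) ≤ 2 ^ j := h7.trans hj1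
    have h9 : (2 : ℝ) ^ j < 4 * n := by linarith
    exact ⟨⟨⟨h1, by exact_mod_cast h8⟩, by exact_mod_cast h9, h4, h6⟩, h5⟩
  calc (((Icc 1 ⌊x⌋₊).filter (fun n : ℕ => x / 2 < n ∧ Even n ∧ q ∣ n ∧
        (gb n : ℝ) < 1 / 2 * (n : ℝ) / Real.log n ^ 2)).card : ℝ)
      ≤ (mul (Ex j) q : ℝ) := by
        unfold mul
        exact_mod_cast card_le_card hsub
    _ ≤ (2 : ℝ) ^ j / (2 * q * Real.log (2 ^ j) ^ A) := hfin
    _ ≤ (2 * x) / (2 * q * Real.log x ^ A) := by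
        apply div_le_div₀ (by linarith) hj2.le (by positivity)
        apply mul_le_mul_of_nonneg_left _ (by positivity)
        exact pow_le_pow_left₀ hlx.le hlj A
    _ = x / (q * Real.log x ^ A) := by
        rw [mul_assoc, mul_div_mul_left _ _ (by norm_num : (2 : ℝ) ≠ 0)]

end Pool.Agent.H491R3.GB
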