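import Pool.Agent.H491R3.GB.Gold

set_option autoImplicit false

namespace Pool.Agent.H491R3.GB

open Finset MeasureTheory Filter

/-- the integral solutions `x` -/
noncomputable def sols (n : ℕ) : Finset ℤ := (Finset.Ioo (-(n : ℤ)) n).filter (fun x : ℤ =>
  0 < (n : ℤ) - x ∧ 0 < (n : ℤ) + x ∧
    Nat.totient ((n : ℤ) - x).toNat + 1 = ((n : ℤ) - x).toNat ∧
    Nat.totient ((n : ℤ) + x).toNat + 1 = ((n : ℤ) + x).toNat)

theorem gb_le_sols (n : ℕ) : gb (2 * n) ≤ (sols n).card := by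
  unfold gb
  apply card_le_card_of_injOn (fun p : ℕ => (n : ℤ) - p)
  · intro p hp
    rw [mem_coe, mem_filter, mem_range] at hp
    obtain ⟨h1, h2, h3⟩ := hp
    have h4 := h2.two_le
    have h5 := h3.two_le
    have e1 : ((n : ℤ) - ((n : ℤ) - p)).toNat = p := by omega
    have e2 : ((n : ℤ) + ((n : ℤ) - p)).toNat = 2 * n - p := by omega
    unfold sols
    rw [mem_coe, mem_filter, Finset.mem_Ioo]
    beta_reduce
    refine ⟨⟨by omega, by omega⟩, by omega, by omega, ?_, ?_⟩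
    · rw [e1, Nat.totient_prime h2]
      omega
    · rw [e2, Nat.totient_prime h3]
      omega
  · intro p _ r _ h
    have h' : (n : ℤ) - p = (n : ℤ) - r := h
    omega

/-- too few representations of `2n` -/
def Bd (n : ℕ) : Prop := (gb (2 * n) : ℝ) < 1 / 2 * ((2 * n : ℕ) : ℝ) / Real.log ((2 * n : ℕ) : ℝ) ^ 2

noncomputable def ExN (N : ℕ) : Finset ℕ := (Icc 1 N).filter (fun n : ℕ => N < 4 * n ∧ Even n ∧
      (gb n : ℝ) < 1 / 2 * (n : ℝ) / Real.log n ^ 2)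

theorem bad_measure (U A : ℕ) (a : ℝ) (ha : 0 < a) : ∃ Λ : ℝ, 1 ≤ Λ ∧ ∀ b : ℝ, 0 < b →
    Λ ≤ Real.log b → 3 ≤ a * b ∧
    volume {θ : ℝ | a ≤ θ ∧ θ < 2 * a ∧ ∃ m : ℕ, 1 ≤ m ∧ (m : ℝ) ≤ Real.log b ^ A ∧
      Bd (m * ⌊θ * b⌋₊)} ≤
      ENNReal.ofReal (Real.log b ^ A * (5 * a * Real.log b ^ A * 2 ^ U / Real.log b ^ U)) := by
  obtain ⟨N0, hN0⟩ := exc U
  refine ⟨max 1 (max (Real.log (3 / a)) (max (Real.log ((N0 + 1) / a)) (2 * |Real.log (4 * a)|))),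
    le_max_left _ _, fun b hb hΛ => ?_⟩
  set L := Real.log b with hL
  have hL1 : 1 ≤ L := (le_max_left _ _).trans hΛ
  have hL2 : Real.log (3 / a) ≤ L := ((le_max_left _ _).trans (le_max_right _ _)).trans hΛ
  have hL3 : Real.log ((N0 + 1) / a) ≤ L :=
    (((le_max_left _ _).trans (le_max_right _ _)).trans (le_max_right _ _)).trans hΛ
  have hL4 : 2 * |Real.log (4 * a)| ≤ L :=
    (((le_max_right _ _).trans (le_max_right _ _)).trans (le_max_right _ _)).trans hΛ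
  have hab : 3 ≤ a * b := by
    have h1 : 3 / a ≤ b := by
      rw [hL] at hL2
      exact (Real.log_le_log_iff (by positivity) hb).1 hL2
    rw [div_le_iff₀ ha] at h1
    linarith
  have habN : (N0 : ℝ) + 1 ≤ a * b := by
    have h1 : ((N0 : ℝ) + 1) / a ≤ b := by
      rw [hL] at hL3
      exact (Real.log_le_log_iff (by positivity) hb).1 hL3
    rw [div_le_iff₀ ha] at h1
    linarith
  refine ⟨hab, ?_⟩
  have hlog4 : L / 2 ≤ Real.log (4 * a * b) := by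
    rw [Real.log_mul (by positivity) hb.ne']
    have h1 := neg_abs_le (Real.log (4 * a))
    linarith
  set W : ℕ := ⌊L ^ A⌋₊ with hW
  set Nm : ℕ → ℕ := fun m => ⌈4 * m * a * b⌉₊ with hNm
  have hLA : 0 ≤ L ^ A := by positivity
  have hWr : (W : ℝ) ≤ L ^ A := Nat.floor_le hLA
  have hsub : {θ : ℝ | a ≤ θ ∧ θ < 2 * a ∧ ∃ m : ℕ, 1 ≤ m ∧ (m : ℝ) ≤ L ^ A ∧
      Bd (m * ⌊θ * b⌋₊)} ⊆ ⋃ m ∈ Icc 1 W, ⋃ n ∈ ExN (Nm m),
      Set.Ico (((n / (2 * m) : ℕ) : ℝ) / b) ((((n / (2 * m) : ℕ) : ℝ) + 1) / b) := by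
    rintro θ ⟨h1, h2, m, hm1, hm2, hbd⟩
    have hθ0 : 0 ≤ θ * b := by
      have : 0 ≤ θ := by linarith
      positivity
    set v : ℕ := ⌊θ * b⌋₊ with hv
    have hv1 : (v : ℝ) ≤ θ * b := Nat.floor_le hθ0
    have hv2 : θ * b < v + 1 := Nat.lt_floor_add_one _
    have hmr : (1 : ℝ) ≤ m := by exact_mod_cast hm1
    have hθ1 : a * b ≤ θ * b := mul_le_mul_of_nonneg_right h1 hb.le
    have hθ2 : θ * b ≤ 2 * (a * b) := by nlinarith
    have hmW : m ∈ Icc 1 W := by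
      rw [mem_Icc]
      exact ⟨hm1, Nat.le_floor hm2⟩
    rw [Set.mem_iUnion₂]
    refine ⟨m, hmW, ?_⟩
    rw [Set.mem_iUnion₂]
    refine ⟨2 * (m * v), ?_, ?_⟩
    · unfold ExN
      rw [mem_filter, mem_Icc]
      have c1 : ((2 * (m * v) : ℕ) : ℝ) ≤ 4 * m * a * b := by
        push_cast
        nlinarith
      have c2 : 2 * (m * v) ≤ Nm m := by
        have h3 : ((2 * (m * v) : ℕ) : ℝ) ≤ ((Nm m : ℕ) : ℝ) := c1.trans (Nat.le_ceil _)
        exact Nat.cast_le.1 h3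
      have c3 : (Nm m : ℝ) < 4 * ((2 * (m * v) : ℕ) : ℝ) := by
        have h3 : ((Nm m : ℕ) : ℝ) < 4 * m * a * b + 1 := Nat.ceil_lt_add_one (by positivity)
        have h4 : (m : ℝ) * (a * b - 1) ≤ m * v := by
          apply mul_le_mul_of_nonneg_left _ (by linarith)
          linarith
        have h5 : (m : ℝ) * 3 ≤ m * (a * b) := mul_le_mul_of_nonneg_left hab (by linarith)
        push_cast
        nlinarith
      refine ⟨⟨?_, c2⟩, by exact_mod_cast c3, even_two_mul _, hbd⟩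
      have hv0 : 1 ≤ v := by
        have : (0 : ℝ) < v := by linarith
        exact_mod_cast this
      have : 1 ≤ m * v := Nat.mul_pos hm1 hv0
      omega
    · have e : 2 * (m * v) / (2 * m) = v := by
        rw [← mul_assoc]
        exact Nat.mul_div_cancel_left v (by omega)
      rw [e, Set.mem_Ico, div_le_iff₀ hb, lt_div_iff₀ hb]
      exact ⟨hv1, hv2⟩
  refine (measure_mono hsub).trans ?_
  refine (measure_biUnion_finset_le _ _).trans ?_
  have hterm : ∀ m ∈ Icc 1 W, volume (⋃ n ∈ ExN (Nm m),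
      Set.Ico (((n / (2 * m) : ℕ) : ℝ) / b) ((((n / (2 * m) : ℕ) : ℝ) + 1) / b)) ≤
      ENNReal.ofReal (5 * a * L ^ A * 2 ^ U / L ^ U) := by
    intro m hm
    rw [mem_Icc] at hm
    have hmr : (1 : ℝ) ≤ m := by exact_mod_cast hm.1
    have hmL : (m : ℝ) ≤ L ^ A := le_trans (by exact_mod_cast hm.2) hWr
    refine (measure_biUnion_finset_le _ _).trans ?_
    have h1 : ∀ n ∈ ExN (Nm m), volume (Set.Ico (((n / (2 * m) : ℕ) : ℝ) / b)
        ((((n / (2 * m) : ℕ) : ℝ) + 1) / b)) ≤ ENNReal.ofReal (1 / b) := by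
      intro n _
      rw [Real.volume_Ico]
      apply ENNReal.ofReal_le_ofReal
      rw [add_div]
      linarith
    refine (sum_le_sum h1).trans ?_
    rw [sum_const, nsmul_eq_mul, ← ENNReal.ofReal_natCast, ← ENNReal.ofReal_mul (Nat.cast_nonneg _)]
    apply ENNReal.ofReal_le_ofReal
    have d1 : 4 * a * b ≤ (Nm m : ℝ) := by
      have h3 : (4 * m * a * b) ≤ (Nm m : ℝ) := Nat.le_ceil _
      have h4 : (4 * a * b) * 1 ≤ (4 * a * b) * m := mul_le_mul_of_nonneg_left hmr (by positivity)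
      nlinarith
    have d2 : N0 ≤ Nm m := by
      have h3 : (N0 : ℝ) ≤ (Nm m : ℝ) := by nlinarith
      exact_mod_cast h3
    have d3 : ((ExN (Nm m)).card : ℝ) ≤ (Nm m : ℝ) / Real.log (Nm m) ^ U := hN0 (Nm m) d2
    have d4 : (Nm m : ℝ) ≤ 5 * a * b * L ^ A := by
      have h3 : ((Nm m : ℕ) : ℝ) < 4 * m * a * b + 1 := Nat.ceil_lt_add_one (by positivity)
      have h4 : (a * b) * m ≤ (a * b) * L ^ A := mul_le_mul_of_nonneg_left hmL (by positivity)
      have h5 : (3 : ℝ) * 1 ≤ (a * b) * m := mul_le_mul hab hmr (by norm_num) (by linarith)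
      nlinarith
    have d5 : L / 2 ≤ Real.log (Nm m) := hlog4.trans (Real.log_le_log (by positivity) d1)
    have d6 : (L / 2) ^ U ≤ Real.log (Nm m) ^ U := pow_le_pow_left₀ (by linarith) d5 U
    have hLU : 0 < (L / 2) ^ U := by positivity
    calc ((ExN (Nm m)).card : ℝ) * (1 / b) ≤ ((5 * a * b * L ^ A) / (L / 2) ^ U) * (1 / b) := by
          apply mul_le_mul_of_nonneg_right _ (by positivity)
          exact d3.trans (div_le_div₀ (by positivity) d4 hLU d6)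
      _ = 5 * a * L ^ A * 2 ^ U / L ^ U := by
          rw [div_pow]
          field_simp
  refine (sum_le_sum hterm).trans ?_
  rw [sum_const, nsmul_eq_mul, Nat.card_Icc, Nat.add_sub_cancel, ← ENNReal.ofReal_natCast,
    ← ENNReal.ofReal_mul (Nat.cast_nonneg _)]
  apply ENNReal.ofReal_le_ofReal
  exact mul_le_mul_of_nonneg_right hWr (by positivity)

theorem metric_a (b : ℕ → ℝ) (D A : ℕ) (hb1 : ∀ k, 1 ≤ b k)
    (hb : ∀ k : ℕ, (k : ℝ) ≤ Real.log (b k) ^ D) (a : ℝ) (ha : 0 < a) :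
    ∀ᵐ θ : ℝ, a ≤ θ → θ < 2 * a → ∀ᶠ k in atTop, 2 ≤ ⌊θ * b k⌋₊ ∧
      ∀ m : ℕ, 1 ≤ m → (m : ℝ) ≤ Real.log (b k) ^ A → ¬ Bd (m * ⌊θ * b k⌋₊) := by
  obtain ⟨Λ, hΛ1, hΛ⟩ := bad_measure (2 * A + 2 * D) A a ha
  obtain ⟨k₀, hk₀⟩ := exists_nat_gt (Λ ^ D)
  have hbig : ∀ k, k₀ ≤ k → Λ ≤ Real.log (b k) := by
    intro k hk
    by_contra hcon
    push Not at hcon
    have h1 : Real.log (b k) ^ D ≤ Λ ^ D :=
      pow_le_pow_left₀ (Real.log_nonneg (hb1 k)) hcon.le D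
    have h2 := hb k
    have h3 : (k₀ : ℝ) ≤ k := by exact_mod_cast hk
    linarith
  set C : ℝ := 5 * a * 2 ^ (2 * A + 2 * D) with hC
  set s : ℕ → Set ℝ := fun k => {θ : ℝ | k₀ + 1 ≤ k ∧ a ≤ θ ∧ θ < 2 * a ∧
    ∃ m : ℕ, 1 ≤ m ∧ (m : ℝ) ≤ Real.log (b k) ^ A ∧ Bd (m * ⌊θ * b k⌋₊)} with hs
  have hmeas : ∀ k, volume (s k) ≤ ENNReal.ofReal (C * (1 / (k : ℝ) ^ 2)) := by
    intro k
    by_cases hk : k₀ + 1 ≤ k
    · have h1 := (hΛ (b k) (by linarith [hb1 k]) (hbig k (by omega))).2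
      refine (measure_mono ?_).trans (h1.trans ?_)
      · rintro θ ⟨-, h⟩
        exact h
      · apply ENNReal.ofReal_le_ofReal
        set L := Real.log (b k) with hL
        have hL1 : 1 ≤ L := hΛ1.trans (hbig k (by omega))
        have hL0 : 0 < L := by linarith
        have hk0 : (0 : ℝ) < k := by
          have : 0 < k := by omega
          exact_mod_cast this
        have e : L ^ A * (5 * a * L ^ A * 2 ^ (2 * A + 2 * D) / L ^ (2 * A + 2 * D)) =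
            C * (1 / (L ^ D) ^ 2) := by
          rw [hC, pow_add L, ← pow_mul, show 2 * A = A + A by ring, pow_add L, mul_comm D 2]
          field_simp
        rw [e]
        apply mul_le_mul_of_nonneg_left _ (by positivity)
        apply one_div_le_one_div_of_le (by positivity)
        exact pow_le_pow_left₀ hk0.le (hb k) 2
    · have e : s k = ∅ := by
        ext θ
        constructor
        · rintro ⟨h, -⟩
          exact absurd h hk
        · intro h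
          exact absurd h (Set.notMem_empty _)
      rw [e, measure_empty]
      exact zero_le
  have hsum : (∑' k, volume (s k)) ≠ ⊤ := by
    have h1 : Summable (fun k : ℕ => C * (1 / (k : ℝ) ^ 2)) :=
      (Real.summable_one_div_nat_pow.2 (by norm_num)).mul_left C
    exact ne_top_of_le_ne_top h1.tsum_ofReal_ne_top (ENNReal.tsum_le_tsum hmeas)
  filter_upwards [ae_eventually_notMem hsum] with θ hθ h1 h2
  filter_upwards [hθ, eventually_ge_atTop (k₀ + 1)] with k hk hkk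
  have hab := (hΛ (b k) (by linarith [hb1 k]) (hbig k (by omega))).1
  have hb0 : 0 < b k := by linarith [hb1 k]
  refine ⟨?_, fun m hm1 hm2 hbd => hk ⟨hkk, h1, h2, m, hm1, hm2, hbd⟩⟩
  apply Nat.le_floor
  have : a * b k ≤ θ * b k := mul_le_mul_of_nonneg_right h1 hb0.le
  push_cast
  linarith

theorem metric (b : ℕ → ℝ) (D A : ℕ) (hb1 : ∀ k, 1 ≤ b k)
    (hb : ∀ k : ℕ, (k : ℝ) ≤ Real.log (b k) ^ D) :
    ∀ᵐ θ : ℝ, 0 < θ → ∀ᶠ k in atTop, 2 ≤ ⌊θ * b k⌋₊ ∧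
      ∀ m : ℕ, 1 ≤ m → (m : ℝ) ≤ Real.log (b k) ^ A →
        ((m * ⌊θ * b k⌋₊ : ℕ) : ℝ) / Real.log (2 * ((m * ⌊θ * b k⌋₊ : ℕ) : ℝ)) ^ 2 ≤
          (sols (m * ⌊θ * b k⌋₊)).card := by
  have h : ∀ i : ℤ, ∀ᵐ θ : ℝ, (2 : ℝ) ^ i ≤ θ → θ < 2 * (2 : ℝ) ^ i → ∀ᶠ k in atTop,
      2 ≤ ⌊θ * b k⌋₊ ∧ ∀ m : ℕ, 1 ≤ m → (m : ℝ) ≤ Real.log (b k) ^ A →
        ¬ Bd (m * ⌊θ * b k⌋₊) := fun i => metric_a b D A hb1 hb _ (by positivity)
  rw [← ae_all_iff] at h
  filter_upwards [h] with θ hθ h0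
  obtain ⟨i, hi1, hi2⟩ := exists_mem_Ico_zpow h0 (show (1 : ℝ) < 2 by norm_num)
  have hi3 : θ < 2 * (2 : ℝ) ^ i := by
    rw [zpow_add_one₀ (by norm_num)] at hi2
    linarith
  filter_upwards [hθ i hi1 hi3] with k hk
  refine ⟨hk.1, fun m hm1 hm2 => ?_⟩
  have h1 := hk.2 m hm1 hm2
  unfold Bd at h1
  push Not at h1
  have h2 : ((gb (2 * (m * ⌊θ * b k⌋₊)) : ℕ) : ℝ) ≤ (sols (m * ⌊θ * b k⌋₊)).card := by
    exact_mod_cast gb_le_sols _
  refine le_trans ?_ h2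
  refine le_trans (le_of_eq ?_) h1
  push_cast
  ring

end Pool.Agent.H491R3.GB
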