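import Pool.Agent.H491R3.GB.Gold
import Pool.Agent.H491R3.GB.Assemble

set_option autoImplicit false

namespace Pool.Agent.H491R3.GB

open Finset Polynomial
open Pool.Agent.H373R2.T7

/-- the quadratic polynomial -/
noncomputable def GG (b c : ℤ) : ℤ[X] := X ^ 2 + C b * X + C c

theorem GG_deg (b c : ℤ) : (GG b c).natDegree = 2 := by
  unfold GG
  compute_degree!

theorem GG_lead (b c : ℤ) : (GG b c).leadingCoeff = 1 := by
  have e : GG b c = C 1 * X ^ 2 + C b * X + C c := by simp [GG]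
  rw [e, leadingCoeff_quadratic one_ne_zero]

theorem GG_eval (b c m : ℤ) : (GG b c).eval m = m ^ 2 + b * m + c := by
  unfold GG
  simp

theorem noFixedG (b c : ℤ) (hbc : Odd (b + c)) (h3 : ¬ (3 : ℤ) ∣ b) (n : ℕ) (hn : Odd n) :
    TB.NoFixed (PArg.eF F0) (GG b c) n := by
  intro p hp
  by_contra hcon
  push Not at hcon
  have key : ∀ m : ℤ, (p : ℤ) ∣ m ∨ (p : ℤ) ∣ (n : ℤ) - (m ^ 2 + b * m + c) := by
    intro m
    have h := hcon m
    rw [prod_eF, GG_eval] at h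
    exact (Nat.prime_iff_prime_int.1 hp).dvd_or_dvd h
  have k1 := key 1
  have k2 := key 2
  have k3 := key 3
  have hp2 := hp.two_le
  obtain ⟨k, hk⟩ := hn
  obtain ⟨l, hl⟩ := hbc
  rcases Nat.lt_or_ge p 5 with h5 | h5
  · interval_cases p
    · rcases k1 with h | h
      · norm_num at h
      · push_cast at h
        omega
    · rcases k1 with h | h
      · norm_num at h
      · rcases k2 with h' | h'
        · norm_num at h'
        · push_cast at h h'
          omega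
    · norm_num at hp
  · have hpz : (5 : ℤ) ≤ p := by exact_mod_cast h5
    have a1 : ¬ (p : ℤ) ∣ 1 := fun h => by
      have := Int.le_of_dvd (by norm_num) h
      omega
    have a2 : ¬ (p : ℤ) ∣ 2 := fun h => by
      have := Int.le_of_dvd (by norm_num) h
      omega
    have a3 : ¬ (p : ℤ) ∣ 3 := fun h => by
      have := Int.le_of_dvd (by norm_num) h
      omega
    have b1 := k1.resolve_left a1
    have b2 := k2.resolve_left a2
    have b3 := k3.resolve_left a3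
    apply a2
    have h4 := dvd_sub (Dvd.dvd.mul_left b2 2) (dvd_add b1 b3)
    have e : (2 : ℤ) * ((n : ℤ) - (2 ^ 2 + b * 2 + c)) -
        ((n : ℤ) - (1 ^ 2 + b * 1 + c) + ((n : ℤ) - (3 ^ 2 + b * 3 + c))) = 2 := by ring
    rwa [e] at h4

theorem TP_pos (G : ℤ[X]) (n z x : ℕ) (hnf : TB.NoFixed (PArg.eF F0) G n)
    (hX : 0 < SHN.XCount G n x) : 0 < PB.TP F0 G n z z x := by
  unfold PB.TP
  rw [Finset.Ioc_self, filter_empty, prod_empty, mul_one]
  have h1 : ∀ p ∈ (Icc 1 z).filter Nat.Prime, (0 : ℝ) < 1 - 1 / (p : ℝ) := by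
    intro p hp
    rw [mem_filter] at hp
    have h2 : (2 : ℝ) ≤ p := by exact_mod_cast hp.2.two_le
    have h3 : 1 / (p : ℝ) ≤ 1 / 2 := one_div_le_one_div_of_le (by norm_num) h2
    linarith
  have h2 : 0 < ∏ p ∈ (Icc 1 z).filter Nat.Prime, (1 - 1 / (p : ℝ)) := prod_pos h1
  have h3 : 0 < ∏ p ∈ (Icc 1 z).filter Nat.Prime,
      (1 - (TB.omegaN (PArg.eF F0) G n p : ℝ) / p) / (1 - 1 / (p : ℝ)) := by
    apply prod_pos
    intro p hp
    apply div_pos _ (h1 p hp)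
    rw [mem_filter] at hp
    have h4 := TB.omegaN_lt (PArg.eF F0) G n hnf p hp.2
    have h5 : (TB.omegaN (PArg.eF F0) G n p : ℝ) < p := by exact_mod_cast h4
    have hp0 : (0 : ℝ) < p := by exact_mod_cast hp.2.pos
    rw [sub_pos, div_lt_one hp0]
    exact h5
  have h4 : (0 : ℝ) < SHN.XCount G n x := by exact_mod_cast hX
  positivity

/-- `n` is of the form `f(p₁) + p₂` -/
def Rep (b c : ℤ) (n : ℕ) : Prop := ∃ p₁ p₂ : ℕ, p₁.Prime ∧ p₂.Prime ∧
  (n : ℤ) = ((p₁ : ℤ) ^ 2 + b * (p₁ : ℤ) + c) + (p₂ : ℤ)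

theorem rep_of_WP (b c : ℤ) (n z x : ℕ) (h : PB.WP F0 (GG b c) n z x ≠ 0) : Rep b c n := by
  classical
  unfold PB.WP at h
  obtain ⟨p, hp, -⟩ := exists_ne_zero_of_sum_ne_zero h
  rw [mem_filter, GG_eval] at hp
  obtain ⟨-, h1, h2, -⟩ := hp
  refine ⟨p, _, h1, h2, ?_⟩
  have h3 := h2.two_le
  have h4 : 0 ≤ (n : ℤ) - ((p : ℤ) ^ 2 + b * p + c) := by omega
  rw [Int.toNat_of_nonneg h4]
  ring

/-- lower bound for the number of admissible `m` -/
theorem XCount_ge (b c : ℤ) : ∃ M0 : ℕ, ∀ M : ℕ, M0 ≤ M → ∀ n : ℕ, M < 4 * n → n ≤ M →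
    (1 / 8 : ℝ) * (Nat.sqrt M : ℝ) ≤ SHN.XCount (GG b c) n (Nat.sqrt M) := by
  refine ⟨(16 * (b.natAbs + c.natAbs + 8)) ^ 2, fun M hM n hn hnM => ?_⟩
  set s := Nat.sqrt M with hs
  set t : ℕ := 16 * (b.natAbs + c.natAbs + 8) with ht
  have hts : t ≤ s := by
    rw [hs, Nat.le_sqrt']
    exact hM
  have hsM : s ^ 2 ≤ M := Nat.sqrt_le' M
  have hsub : Icc 1 (s / 4) ⊆ (Icc 1 s).filter
      (fun m : ℕ => 0 < (n : ℤ) - (GG b c).eval (m : ℤ)) := by
    intro m hm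
    rw [mem_Icc] at hm
    rw [mem_filter, mem_Icc, GG_eval]
    refine ⟨⟨hm.1, by omega⟩, ?_⟩
    have h4m : 4 * m ≤ s := by omega
    have h4z : 4 * (m : ℤ) ≤ s := by exact_mod_cast h4m
    have hm0 : (0 : ℤ) ≤ m := Nat.cast_nonneg m
    have hb : b ≤ |b| := le_abs_self b
    have hc : c ≤ |c| := le_abs_self c
    have htz : (t : ℤ) = 16 * (|b| + |c| + 8) := by
      rw [ht]
      push_cast
      ring
    have htsz : (t : ℤ) ≤ s := by exact_mod_cast hts
    have hsMz : (s : ℤ) ^ 2 ≤ M := by exact_mod_cast hsM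
    have hnz : (M : ℤ) < 4 * n := by exact_mod_cast hn
    have habs : 0 ≤ |b| := abs_nonneg b
    have habc : 0 ≤ |c| := abs_nonneg c
    have e1 : b * m ≤ |b| * m := mul_le_mul_of_nonneg_right hb hm0
    have e2 : |b| * (4 * (m : ℤ)) ≤ |b| * s := mul_le_mul_of_nonneg_left h4z habs
    have e3 : 16 * (|b| + |c| + 8) * (s : ℤ) ≤ s * s := by
      rw [← htz]
      exact mul_le_mul_of_nonneg_right htsz (by linarith)
    have e4 : (4 * (m : ℤ)) * (4 * m) ≤ s * s := mul_le_mul h4z h4z (by linarith) (by linarith)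
    have hs1 : (128 : ℤ) ≤ s := by linarith
    have e5 : |c| * 1 ≤ |c| * s := mul_le_mul_of_nonneg_left (by linarith) habc
    nlinarith
  have hcard := card_le_card hsub
  rw [Nat.card_Icc, Nat.add_sub_cancel] at hcard
  have h1 : s / 4 ≤ SHN.XCount (GG b c) n s := hcard
  have h2 : s ≤ 8 * (s / 4) := by omega
  have h3 : (s : ℝ) ≤ 8 * ((s / 4 : ℕ) : ℝ) := by exact_mod_cast h2
  have h4 : ((s / 4 : ℕ) : ℝ) ≤ SHN.XCount (GG b c) n s := by exact_mod_cast h1
  linarith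

open Classical in
/-- the exceptional set bound for `f(p₁) + p₂` -/
theorem excG (b c : ℤ) (hbc : Odd (b + c)) (h3 : ¬ (3 : ℤ) ∣ b) (U : ℕ) :
    ∃ M0 : ℕ, ∀ M : ℕ, M0 ≤ M →
    (((Icc 1 M).filter (fun n : ℕ => M < 4 * n ∧ Odd n ∧ ¬ Rep b c n)).card : ℝ) ≤
      M / Real.log M ^ U := by
  obtain ⟨K, hK, h⟩ := PB.pb_main 2 (1 / 2) (by norm_num)
  obtain ⟨B0, hB0⟩ := h 0 F0 (fun i => i.elim0) (fun i => i.elim0) (GG b c)
    (by rw [GG_deg]; norm_num) (by rw [GG_lead]; norm_num)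
    (by rw [GG_deg]; simp) 4 (U + 1) (1 / 8) (by norm_num) (by norm_num)
  obtain ⟨x0, hx0⟩ := hB0 (B0 + 1)
  obtain ⟨n1, hn1⟩ := log_pow_le ((B0 + 1) * K)
  obtain ⟨n2, hn2⟩ := log_ge (4 ^ (U + 1) + 3)
  obtain ⟨M1, hM1⟩ := XCount_ge b c
  obtain ⟨n4, hn4⟩ := log_ge 3
  refine ⟨max (max ((x0 + n1 + n4 + 16) ^ 2) n2) (max M1 256), fun M hM => ?_⟩
  have b1 : (x0 + n1 + n4 + 16) ^ 2 ≤ M := le_trans (le_trans (le_max_left _ _) (le_max_left _ _)) hM
  have b2 : n2 ≤ M := le_trans (le_trans (le_max_right _ _) (le_max_left _ _)) hM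
  have b3 : M1 ≤ M := le_trans (le_trans (le_max_left _ _) (le_max_right _ _)) hM
  have b4 : 256 ≤ M := le_trans (le_trans (le_max_right _ _) (le_max_right _ _)) hM
  set x := Nat.sqrt M with hx
  have hxx : x0 + n1 + n4 + 16 ≤ x := by
    rw [hx, Nat.le_sqrt']
    exact b1
  have hxM : x ^ 2 ≤ M := Nat.sqrt_le' M
  have hMx : M < (x + 1) ^ 2 := Nat.lt_succ_sqrt' M
  have hL := hn4 x (by omega)
  set L := Real.log x with hLd
  set z : ℕ := ⌈L ^ B0⌉₊ + 1 with hz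
  have hLB : 1 ≤ L ^ B0 := one_le_pow₀ (by linarith)
  have hz1 : L ^ B0 ≤ z := by
    rw [hz]
    push_cast
    have := Nat.le_ceil (L ^ B0)
    linarith
  have hz2 : (z : ℝ) ≤ L ^ (B0 + 1) := by
    rw [hz]
    push_cast
    have h1 := (Nat.ceil_lt_add_one (show 0 ≤ L ^ B0 by linarith)).le
    rw [pow_succ]
    nlinarith
  have hzK : z ^ K ≤ x := by
    have h1 : ((z : ℝ)) ^ K ≤ (L ^ (B0 + 1)) ^ K := pow_le_pow_left₀ (Nat.cast_nonneg _) hz2 K
    rw [← pow_mul] at h1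
    have h2 := h1.trans (hn1 x (by omega))
    exact_mod_cast h2
  have hfin := hx0 x (by omega) M (by rw [GG_deg]; nlinarith) (by rw [GG_deg]; nlinarith) z z
    hz1 hz2 le_rfl hzK
  have hlogM : 4 ^ (U + 1) + 3 ≤ Real.log M := hn2 M b2
  have hML : Real.log M ≤ 4 * L := by
    have h1 : M ≤ x ^ 4 := by
      have g1 : (x + 1) ^ 2 ≤ (2 * x) ^ 2 := Nat.pow_le_pow_left (by omega) 2
      have g2 : 4 ≤ x ^ 2 := by nlinarith
      calc M ≤ (x + 1) ^ 2 := hMx.le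
        _ ≤ (2 * x) ^ 2 := g1
        _ = 4 * x ^ 2 := by ring
        _ ≤ x ^ 2 * x ^ 2 := Nat.mul_le_mul_right _ g2
        _ = x ^ 4 := by ring
    have h2 : (M : ℝ) ≤ (x : ℝ) ^ 4 := by exact_mod_cast h1
    have h3 := Real.log_le_log (by positivity) h2
    rw [Real.log_pow] at h3
    push_cast at h3
    exact h3
  have hlm0 : 0 < Real.log M := by
    have : (0 : ℝ) < 4 ^ (U + 1) := by positivity
    linarith
  have hfin2 : (M : ℝ) / L ^ (U + 1) ≤ M / Real.log M ^ U := by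
    apply div_le_div_of_nonneg_left (Nat.cast_nonneg _) (by positivity)
    have h1 : Real.log M ^ (U + 1) ≤ (4 * L) ^ (U + 1) := pow_le_pow_left₀ hlm0.le hML _
    rw [mul_pow, pow_succ] at h1
    have h2 : Real.log M ^ U * 4 ^ (U + 1) ≤ Real.log M ^ U * Real.log M := by
      apply mul_le_mul_of_nonneg_left _ (by positivity)
      linarith
    have h3 : (0 : ℝ) < 4 ^ (U + 1) := by positivity
    have h4 := h2.trans h1
    rw [mul_comm] at h4
    exact le_of_mul_le_mul_left h4 h3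
  refine le_trans ?_ (hfin.trans hfin2)
  have hsub : (Icc 1 M).filter (fun n : ℕ => M < 4 * n ∧ Odd n ∧ ¬ Rep b c n) ⊆
      (Icc 1 M).filter (fun n : ℕ => ¬ (TB.NoFixed (PArg.eF F0) (GG b c) n →
        (1 / 8 : ℝ) * x ≤ SHN.XCount (GG b c) n x →
        |PB.WP F0 (GG b c) n z x - PB.TP F0 (GG b c) n z z x| ≤
          1 / 2 * PB.TP F0 (GG b c) n z z x)) := by
    intro n hn
    rw [mem_filter, mem_Icc] at hn
    obtain ⟨⟨hn1, hnM⟩, hn4, hodd, hrep⟩ := hn
    rw [mem_filter, mem_Icc]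
    refine ⟨⟨hn1, hnM⟩, fun himp => hrep ?_⟩
    have hnf := noFixedG b c hbc h3 n hodd
    have hXc := hM1 M b3 n hn4 hnM
    have h1 := himp hnf hXc
    have hXpos : 0 < SHN.XCount (GG b c) n x := by
      have h2 : (0 : ℝ) < x := by
        have : 0 < x := by omega
        exact_mod_cast this
      have h4 : (0 : ℝ) < SHN.XCount (GG b c) n x := lt_of_lt_of_le (by positivity) hXc
      exact_mod_cast h4
    have hT := TP_pos (GG b c) n z x hnf hXpos
    apply rep_of_WP b c n z x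
    intro h0
    rw [h0, zero_sub, abs_neg, abs_of_pos hT] at h1
    linarith
  exact_mod_cast card_le_card hsub

end Pool.Agent.H491R3.GB
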