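import Pool.Agent.H491R3.GB.Sch

set_option autoImplicit false

namespace Pool.Agent.H491R3.GB

open Finset

/-- a set of natural numbers with at most `X / (log X)^A` elements up to `X`, for all `X ≥ 2` -/
def Thin (A : ℕ) (B : Set ℕ) : Prop :=
  ∀ X : ℝ, 2 ≤ X → {q | q ∈ B ∧ (q : ℝ) ≤ X}.Finite ∧
    ({q | q ∈ B ∧ (q : ℝ) ≤ X}.ncard : ℝ) ≤ X / Real.log X ^ A

open Classical in
/-- an exceptional set with a bound `x/(log x)^U` for all `U` has few elements among the multiples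
of almost all `q` -/
theorem assembleR (P : ℕ → Prop) (hP : ∀ U : ℕ, ∃ M0 : ℕ, ∀ M : ℕ, M0 ≤ M →
      (((Icc 1 M).filter (fun n : ℕ => M < 4 * n ∧ P n)).card : ℝ) ≤ M / Real.log M ^ U) (A : ℕ) :
    ∃ (x₀ : ℝ) (B : Set ℕ), Thin A B ∧
    ∀ x : ℝ, x₀ ≤ x → ∀ q : ℕ, 0 < q → (q : ℝ) ≤ x / 4 →
      (q ∉ B ∨ (q : ℝ) ≤ Real.log x ^ A) →
      (((Icc 1 ⌊x⌋₊).filter (fun n : ℕ => x / 2 < n ∧ q ∣ n ∧ P n)).card : ℝ) ≤
        x / (q * Real.log x ^ A) := by
  obtain ⟨j₀, B, hB, h⟩ := assemble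
    (fun j => (Icc 1 (2 ^ j)).filter (fun n : ℕ => 2 ^ j < 4 * n ∧ P n))
    (fun j => filter_subset _ _)
    (fun U => by
      obtain ⟨N0, h⟩ := hP U
      refine ⟨N0, fun j hj => ?_⟩
      have h1 : N0 ≤ 2 ^ j := hj.trans (Nat.lt_two_pow_self).le
      have h2 := h (2 ^ j) h1
      have e : (((2 ^ j : ℕ)) : ℝ) = (2 : ℝ) ^ j := by push_cast; ring
      rw [e] at h2
      exact h2) A
  refine ⟨max 2 (2 ^ j₀), B, hB, fun x hx q hq hqx hqB => ?_⟩
  have hx2 : 2 ≤ x := (le_max_left _ _).trans hx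
  have hxj : (2 : ℝ) ^ j₀ ≤ x := (le_max_right _ _).trans hx
  obtain ⟨j, hj1, hj2⟩ : ∃ j : ℕ, x ≤ 2 ^ j ∧ (2 : ℝ) ^ j < 2 * x := by
    refine ⟨Nat.clog 2 ⌈x⌉₊, ?_, ?_⟩
    · have h1 : ⌈x⌉₊ ≤ 2 ^ Nat.clog 2 ⌈x⌉₊ := Nat.le_pow_clog (by norm_num) _
      have h2 : ((⌈x⌉₊ : ℕ) : ℝ) ≤ ((2 ^ Nat.clog 2 ⌈x⌉₊ : ℕ) : ℝ) := by exact_mod_cast h1
      push_cast at h2
      exact (Nat.le_ceil x).trans h2
    · have hc : 1 < ⌈x⌉₊ := by
        have h3 := Nat.le_ceil x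
        have h4 : (2 : ℝ) ≤ (⌈x⌉₊ : ℝ) := hx2.trans h3
        have : 2 ≤ ⌈x⌉₊ := by exact_mod_cast h4
        omega
      have h1 : 2 ^ (Nat.clog 2 ⌈x⌉₊).pred < ⌈x⌉₊ := Nat.pow_pred_clog_lt_self (by norm_num) hc
      have h2 : (((2 ^ (Nat.clog 2 ⌈x⌉₊).pred : ℕ)) : ℝ) < x := Nat.lt_ceil.1 h1
      have h5 : 0 < Nat.clog 2 ⌈x⌉₊ := Nat.clog_pos (by norm_num) hc
      obtain ⟨m, hm⟩ : ∃ m, Nat.clog 2 ⌈x⌉₊ = m + 1 := ⟨_, (Nat.succ_pred_eq_of_pos h5).symm⟩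
      rw [hm] at h2 ⊢
      rw [Nat.pred_succ] at h2
      push_cast at h2
      rw [pow_succ]
      linarith
  have hjj : j₀ ≤ j := by
    by_contra hcon
    push Not at hcon
    have h1 : (2 : ℝ) ^ (j + 1) ≤ 2 ^ j₀ := pow_le_pow_right₀ (by norm_num) hcon
    rw [pow_succ] at h1
    have h3 : (0 : ℝ) < 2 ^ j := by positivity
    linarith
  have hlx : 0 < Real.log x := Real.log_pos (by linarith)
  have hlj : Real.log x ≤ Real.log (2 ^ j) := Real.log_le_log (by linarith) hj1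
  have hq4 : 4 * q ≤ 2 ^ j := by
    have h1 : (4 : ℝ) * q ≤ 2 ^ j := by linarith
    exact_mod_cast h1
  have hq0 : (0 : ℝ) < q := by exact_mod_cast hq
  have hfin := h j hjj q hq hq4 (by
    rcases hqB with h1 | h1
    · exact Or.inl h1
    · exact Or.inr (h1.trans (pow_le_pow_left₀ hlx.le hlj A)))
  have hsub : (Icc 1 ⌊x⌋₊).filter (fun n : ℕ => x / 2 < n ∧ q ∣ n ∧ P n) ⊆
      ((Icc 1 (2 ^ j)).filter (fun n : ℕ => 2 ^ j < 4 * n ∧ P n)).filter (fun n => q ∣ n) := by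
    intro n hn
    rw [mem_filter, mem_Icc] at hn
    obtain ⟨⟨h1, h2⟩, h3, h5, h6⟩ := hn
    rw [mem_filter, mem_filter, mem_Icc]
    have h7 : (n : ℝ) ≤ x := (Nat.le_floor_iff (by linarith)).1 h2
    have h8 : (n : ℝ) ≤ 2 ^ j := h7.trans hj1
    have h9 : (2 : ℝ) ^ j < 4 * n := by linarith
    exact ⟨⟨⟨h1, by exact_mod_cast h8⟩, by exact_mod_cast h9, h6⟩, h5⟩
  calc (((Icc 1 ⌊x⌋₊).filter (fun n : ℕ => x / 2 < n ∧ q ∣ n ∧ P n)).card : ℝ)
      ≤ (mul ((Icc 1 (2 ^ j)).filter (fun n : ℕ => 2 ^ j < 4 * n ∧ P n)) q : ℝ) := by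
        unfold mul
        exact_mod_cast card_le_card hsub
    _ ≤ (2 : ℝ) ^ j / (2 * q * Real.log (2 ^ j) ^ A) := hfin
    _ ≤ (2 * x) / (2 * q * Real.log x ^ A) := by
        apply div_le_div₀ (by linarith) hj2.le (by positivity)
        apply mul_le_mul_of_nonneg_left _ (by positivity)
        exact pow_le_pow_left₀ hlx.le hlj A
    _ = x / (q * Real.log x ^ A) := by
        rw [mul_assoc, mul_div_mul_left _ _ (by norm_num : (2 : ℝ) ≠ 0)]

open Classical in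
theorem set_eq (S : Set ℕ) (X : ℝ) (hX : 0 ≤ X) : {q | q ∈ S ∧ (q : ℝ) ≤ X} =
    (((range (⌊X⌋₊ + 1)).filter (fun q => q ∈ S) : Finset ℕ) : Set ℕ) := by
  ext q
  rw [Set.mem_ofPred_eq, mem_coe, mem_filter, mem_range, Nat.lt_succ_iff, Nat.le_floor_iff hX]
  tauto

/-- countably many thin sets are contained in one thin set, up to an initial segment of each -/
theorem thin_union (A : ℕ) (ι : Type) [Encodable ι] (B : ι → Set ℕ) (hB : ∀ i, Thin (A + 1) (B i)) :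
    ∃ B' : Set ℕ, Thin A B' ∧ ∀ i, ∃ N : ℝ, ∀ q ∈ B i, N < q → q ∈ B' := by
  classical
  set N : ℕ → ℝ := fun i => Real.exp (2 ^ (i + 1)) with hN
  set S : ℕ → Set ℕ := fun i => {q | ∃ f : ι, Encodable.encode f = i ∧ q ∈ B f ∧ N i < q} with hS
  refine ⟨⋃ i, S i, ?_, fun f => ⟨N (Encodable.encode f), fun q hq hNq => ?_⟩⟩
  · intro X hX
    have hX0 : 0 ≤ X := by linarith
    have hlX : 0 < Real.log X := Real.log_pos (by linarith)
    rw [set_eq _ X hX0]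
    refine ⟨Finset.finite_toSet _, ?_⟩
    rw [Set.ncard_coe_finset]
    have h1 : (range (⌊X⌋₊ + 1)).filter (fun q => q ∈ ⋃ i, S i) ⊆
        (range ⌈X⌉₊).biUnion (fun i => (range (⌊X⌋₊ + 1)).filter (fun q => q ∈ S i)) := by
      intro q hq
      rw [mem_filter, Set.mem_iUnion] at hq
      obtain ⟨hq1, i, hi⟩ := hq
      rw [mem_biUnion]
      refine ⟨i, ?_, by rw [mem_filter]; exact ⟨hq1, hi⟩⟩
      obtain ⟨f, -, -, h2⟩ := hi
      rw [mem_range, Nat.lt_succ_iff, Nat.le_floor_iff hX0] at hq1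
      rw [mem_range, Nat.lt_ceil]
      have h3 : ((i : ℕ) : ℝ) < N i := by
        rw [hN]
        have h4 : i + 1 < 2 ^ (i + 1) := Nat.lt_two_pow_self
        have h5 : ((i : ℝ)) + 1 < 2 ^ (i + 1) := by exact_mod_cast h4
        have h6 := Real.add_one_le_exp ((2 : ℝ) ^ (i + 1))
        show (i : ℝ) < Real.exp (2 ^ (i + 1))
        linarith
      linarith
    have h2 : ∀ i, ((((range (⌊X⌋₊ + 1)).filter (fun q => q ∈ S i)).card : ℕ) : ℝ) ≤
        (1 / 2) ^ (i + 1) * (X / Real.log X ^ A) := by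
      intro i
      rcases Finset.eq_empty_or_nonempty ((range (⌊X⌋₊ + 1)).filter (fun q => q ∈ S i)) with h | h
      · rw [h, card_empty, Nat.cast_zero]
        positivity
      · obtain ⟨q, hq⟩ := h
        rw [mem_filter, mem_range, Nat.lt_succ_iff, Nat.le_floor_iff hX0] at hq
        obtain ⟨hqX, f, hf, hqB, hqN⟩ := hq
        have hNX : N i < X := lt_of_lt_of_le hqN hqX
        have hlog : (2 : ℝ) ^ (i + 1) < Real.log X := by
          rw [Real.lt_log_iff_exp_lt (by linarith)]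
          exact hNX
        have h3 : ((range (⌊X⌋₊ + 1)).filter (fun q => q ∈ S i)) ⊆
            ((range (⌊X⌋₊ + 1)).filter (fun q => q ∈ B f)) := by
          intro r hr
          rw [mem_filter] at hr ⊢
          obtain ⟨hr1, f', hf', hr2, -⟩ := hr
          have : f' = f := Encodable.encode_injective (hf'.trans hf.symm)
          rw [this] at hr2
          exact ⟨hr1, hr2⟩
        have h4 := (hB f X hX).2
        rw [set_eq _ X hX0, Set.ncard_coe_finset] at h4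
        have h5 : ((((range (⌊X⌋₊ + 1)).filter (fun q => q ∈ S i)).card : ℕ) : ℝ) ≤
            X / Real.log X ^ (A + 1) := le_trans (by exact_mod_cast card_le_card h3) h4
        refine h5.trans ?_
        rw [pow_succ, ← div_div, div_eq_mul_inv _ (Real.log X), mul_comm]
        apply mul_le_mul_of_nonneg_right _ (by positivity)
        rw [one_div, inv_pow]
        exact inv_anti₀ (by positivity) hlog.le
    calc (((range (⌊X⌋₊ + 1)).filter (fun q => q ∈ ⋃ i, S i)).card : ℝ)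
        ≤ (((range ⌈X⌉₊).biUnion
            (fun i => (range (⌊X⌋₊ + 1)).filter (fun q => q ∈ S i))).card : ℝ) := by
          exact_mod_cast card_le_card h1
      _ ≤ ∑ i ∈ range ⌈X⌉₊, ((((range (⌊X⌋₊ + 1)).filter (fun q => q ∈ S i)).card : ℕ) : ℝ) := by
          exact_mod_cast card_biUnion_le
      _ ≤ ∑ i ∈ range ⌈X⌉₊, (1 / 2) ^ (i + 1) * (X / Real.log X ^ A) :=
          sum_le_sum fun i _ => h2 i
      _ = (∑ i ∈ range ⌈X⌉₊, (1 / 2 : ℝ) ^ (i + 1)) * (X / Real.log X ^ A) := by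
          rw [Finset.sum_mul]
      _ ≤ 1 * (X / Real.log X ^ A) := by
          apply mul_le_mul_of_nonneg_right _ (by positivity)
          have h3 : ∀ m : ℕ, ∑ i ∈ range m, (1 / 2 : ℝ) ^ (i + 1) = 1 - (1 / 2) ^ m := by
            intro m
            induction m with
            | zero => simp
            | succ m ih =>
              rw [sum_range_succ, ih]
              ring
          rw [h3]
          have : (0 : ℝ) ≤ (1 / 2) ^ ⌈X⌉₊ := by positivity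
          linarith
      _ = X / Real.log X ^ A := one_mul _
  · rw [Set.mem_iUnion]
    exact ⟨Encodable.encode f, f, rfl, hq, hNq⟩

open Classical in
theorem sch_main (A : ℕ) : ∃ B : Set ℕ, Thin A B ∧
    ∀ b c : ℤ, Odd (b + c) → ¬ (3 : ℤ) ∣ b → ∃ x₀ : ℝ,
    ∀ x : ℝ, x₀ ≤ x → ∀ q : ℕ, 0 < q → (q : ℝ) ≤ x / 4 →
      (q ∉ B ∨ (q : ℝ) ≤ Real.log x ^ A) →
      (((Icc 1 ⌊x⌋₊).filter (fun n : ℕ => x / 2 < n ∧ q ∣ n ∧ Odd n ∧ ¬ Rep b c n)).card : ℝ) ≤
        x / (q * Real.log x ^ A) := by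
  have H : ∀ f : ℤ × ℤ, ∃ (x₀ : ℝ) (B : Set ℕ), Thin (A + 1) B ∧
      (Odd (f.1 + f.2) → ¬ (3 : ℤ) ∣ f.1 → ∀ x : ℝ, x₀ ≤ x → ∀ q : ℕ, 0 < q → (q : ℝ) ≤ x / 4 →
      (q ∉ B ∨ (q : ℝ) ≤ Real.log x ^ (A + 1)) →
      (((Icc 1 ⌊x⌋₊).filter (fun n : ℕ => x / 2 < n ∧ q ∣ n ∧
        (Odd n ∧ ¬ Rep f.1 f.2 n))).card : ℝ) ≤ x / (q * Real.log x ^ (A + 1))) := by
    intro f
    by_cases hf : Odd (f.1 + f.2) ∧ ¬ (3 : ℤ) ∣ f.1
    · obtain ⟨x₀, B, h1, h2⟩ := assembleR (fun n => Odd n ∧ ¬ Rep f.1 f.2 n)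
        (fun U => by
          obtain ⟨M0, h⟩ := excG f.1 f.2 hf.1 hf.2 U
          exact ⟨M0, fun M hM => by convert h M hM⟩) (A + 1)
      exact ⟨x₀, B, h1, fun _ _ x hx q hq hqx hqB => by convert h2 x hx q hq hqx hqB⟩
    · refine ⟨0, ∅, ?_, fun h1 h2 => absurd ⟨h1, h2⟩ hf⟩
      intro X hX
      have e : {q : ℕ | q ∈ (∅ : Set ℕ) ∧ (q : ℝ) ≤ X} = ∅ := by
        ext q
        simp
      rw [e]
      refine ⟨Set.finite_empty, ?_⟩
      rw [Set.ncard_empty, Nat.cast_zero]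
      have : 0 < Real.log X := Real.log_pos (by linarith)
      positivity
  choose x₀ B hB hx using H
  obtain ⟨B', hB', hN⟩ := thin_union A (ℤ × ℤ) B hB
  refine ⟨B', hB', fun b c hbc h3 => ?_⟩
  obtain ⟨N, hN1⟩ := hN (b, c)
  refine ⟨max (x₀ (b, c)) (Real.exp (max N 1)), fun x hxx q hq hqx hqB => ?_⟩
  have c1 : x₀ (b, c) ≤ x := (le_max_left _ _).trans hxx
  have c2 : Real.exp (max N 1) ≤ x := (le_max_right _ _).trans hxx
  have hxpos : 0 < x := lt_of_lt_of_le (Real.exp_pos _) c2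
  have hlog : max N 1 ≤ Real.log x := (Real.le_log_iff_exp_le hxpos).2 c2
  have hl1 : 1 ≤ Real.log x := (le_max_right _ _).trans hlog
  have hlN : N ≤ Real.log x := (le_max_left _ _).trans hlog
  have hq0 : (0 : ℝ) < q := by exact_mod_cast hq
  have h1 := hx (b, c) hbc h3 x c1 q hq hqx (by
    by_cases hqBf : q ∈ B (b, c)
    · right
      rcases hqB with h | h
      · have h2 : (q : ℝ) ≤ N := by
          by_contra hcon
          push Not at hcon
          exact h (hN1 q hqBf hcon)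
        calc (q : ℝ) ≤ Real.log x := h2.trans hlN
          _ = Real.log x ^ 1 := (pow_one _).symm
          _ ≤ Real.log x ^ (A + 1) := pow_le_pow_right₀ hl1 (by omega)
      · exact h.trans (pow_le_pow_right₀ hl1 (by omega))
    · exact Or.inl hqBf)
  refine h1.trans ?_
  apply div_le_div_of_nonneg_left hxpos.le (by positivity)
  apply mul_le_mul_of_nonneg_left _ hq0.le
  exact pow_le_pow_right₀ hl1 (by omega)

end Pool.Agent.H491R3.GB
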